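import Mathlib

set_option autoImplicit false

open Finset

namespace Pool.Agent.H586R3

lemma geom_aux {B S : ℝ} (hB : 0 ≤ B) (hS : 2 * B ≤ S) (j : ℕ) :
    ∑ l ∈ range j, B ^ l * S ^ (j - l) ≤ 2 * S ^ j := by
  have hS0 : 0 ≤ S := by linarith
  induction j with
  | zero => simp
  | succ j ih =>
    rw [Finset.sum_range_succ']
    have h1 : ∑ l ∈ range j, B ^ (l + 1) * S ^ (j + 1 - (l + 1)) =
        B * ∑ l ∈ range j, B ^ l * S ^ (j - l) := by
      rw [Finset.mul_sum]
      apply Finset.sum_congr rfl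
      intro l _
      rw [Nat.add_sub_add_right]
      ring
    rw [h1]
    have h2 : B * ∑ l ∈ range j, B ^ l * S ^ (j - l) ≤ B * (2 * S ^ j) :=
      mul_le_mul_of_nonneg_left ih hB
    have h3 : B * (2 * S ^ j) ≤ S ^ (j + 1) := by
      rw [pow_succ]
      nlinarith [pow_nonneg hS0 j]
    simp only [pow_zero, one_mul, Nat.sub_zero]
    linarith

/-- a quotient of power series with geometric growth has geometric growth -/
lemma growth {a b : ℕ → ℂ} {m : ℕ} (hm : b m ≠ 0) (hb : ∀ i < m, b i = 0) {B : ℝ}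
    (hB : ∀ i, ‖b i‖ ≤ B ^ (i + 1)) {R : ℝ}
    (hR : ∀ j, ‖∑ i ∈ range (j + 1), b i * a (j - i)‖ ≤ R ^ (j + 1)) :
    ∃ S : ℕ, ∀ j, ‖a j‖ ≤ (S : ℝ) ^ (j + 1) := by
  set β : ℝ := ‖b m‖ with hβ
  have hβ0 : 0 < β := norm_pos_iff.2 hm
  have hB0 : 0 ≤ B := by
    have := (norm_nonneg _).trans (hB 0)
    simpa using this
  have hR0 : 0 ≤ R := by
    have := (norm_nonneg _).trans (hR 0)
    simpa using this
  obtain ⟨S, hS⟩ := exists_nat_ge (max (max R (R * (2 * R ^ m / β))) (max (2 * B) (4 * B ^ (m + 2) / β)))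
  have hS1 : R ≤ S := (le_max_left _ _).trans ((le_max_left _ _).trans hS)
  have hS2 : R * (2 * R ^ m / β) ≤ S := (le_max_right _ _).trans ((le_max_left _ _).trans hS)
  have hS3 : 2 * B ≤ S := (le_max_left _ _).trans ((le_max_right _ _).trans hS)
  have hS4 : 4 * B ^ (m + 2) / β ≤ S := (le_max_right _ _).trans ((le_max_right _ _).trans hS)
  have hS0 : (0 : ℝ) ≤ S := Nat.cast_nonneg _
  refine ⟨S, fun j => ?_⟩
  induction j using Nat.strong_induction_on with
  | _ j ih =>
    have h1 := hR (m + j)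
    rw [show m + j + 1 = m + (j + 1) by ring, Finset.sum_range_add] at h1
    have h2 : ∑ x ∈ range m, b x * a (m + j - x) = 0 := by
      apply Finset.sum_eq_zero
      intro x hx
      rw [hb x (Finset.mem_range.1 hx), zero_mul]
    rw [h2, zero_add, Finset.sum_range_succ'] at h1
    have h3 : b (m + 0) * a (m + j - (m + 0)) = b m * a j := by simp
    rw [h3] at h1
    have h4 : ‖∑ k ∈ range j, b (m + (k + 1)) * a (m + j - (m + (k + 1)))‖ ≤
        B ^ (m + 2) * (2 * (S : ℝ) ^ j) := by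
      refine (norm_sum_le _ _).trans ?_
      have h5 : ∀ k ∈ range j, ‖b (m + (k + 1)) * a (m + j - (m + (k + 1)))‖ ≤
          B ^ (m + 2) * (B ^ k * (S : ℝ) ^ (j - k)) := by
        intro k hk
        have hk' := Finset.mem_range.1 hk
        rw [norm_mul]
        have e1 : m + j - (m + (k + 1)) = j - (k + 1) := by omega
        rw [e1]
        have e2 := ih (j - (k + 1)) (by omega)
        have e3 := hB (m + (k + 1))
        have e4 : j - (k + 1) + 1 = j - k := by omega
        rw [e4] at e2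
        calc ‖b (m + (k + 1))‖ * ‖a (j - (k + 1))‖ ≤ B ^ (m + (k + 1) + 1) * (S : ℝ) ^ (j - k) :=
              mul_le_mul e3 e2 (norm_nonneg _) (pow_nonneg hB0 _)
          _ = B ^ (m + 2) * (B ^ k * (S : ℝ) ^ (j - k)) := by ring
      refine (Finset.sum_le_sum h5).trans ?_
      rw [← Finset.mul_sum]
      exact mul_le_mul_of_nonneg_left (geom_aux hB0 hS3 j) (pow_nonneg hB0 _)
    have h6 : β * ‖a j‖ ≤ R ^ (m + (j + 1)) + B ^ (m + 2) * (2 * (S : ℝ) ^ j) := by
      rw [hβ, ← norm_mul]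
      have e5 : b m * a j = (∑ k ∈ range j, b (m + (k + 1)) * a (m + j - (m + (k + 1))) + b m * a j)
        - ∑ k ∈ range j, b (m + (k + 1)) * a (m + j - (m + (k + 1))) := by ring
      rw [e5]
      exact (norm_sub_le _ _).trans (add_le_add h1 h4)
    have h7 : R ^ (m + (j + 1)) ≤ β / 2 * (S : ℝ) ^ (j + 1) := by
      have e6 : R ^ (m + (j + 1)) = β / 2 * ((R * (2 * R ^ m / β)) * R ^ j) := by
        field_simp
        ring
      rw [e6, pow_succ' (S : ℝ) j]
      apply mul_le_mul_of_nonneg_left _ (by positivity)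
      exact mul_le_mul hS2 (pow_le_pow_left₀ hR0 hS1 j) (pow_nonneg hR0 _) hS0
    have h8 : B ^ (m + 2) * (2 * (S : ℝ) ^ j) ≤ β / 2 * (S : ℝ) ^ (j + 1) := by
      have e7 : B ^ (m + 2) * (2 * (S : ℝ) ^ j) = β / 2 * ((4 * B ^ (m + 2) / β) * (S : ℝ) ^ j) := by
        field_simp
        ring
      rw [e7, pow_succ' (S : ℝ) j]
      apply mul_le_mul_of_nonneg_left _ (by positivity)
      exact mul_le_mul_of_nonneg_right hS4 (pow_nonneg hS0 _)
    have h9 : β * ‖a j‖ ≤ β * (S : ℝ) ^ (j + 1) := by linarith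
    exact le_of_mul_le_mul_left h9 hβ0

/-- independence of the exponentials in terms of the power sums -/
lemma coeff_zero_of_moments (s : Finset ℝ) (c : ℝ → ℂ)
    (h : ∀ i : ℕ, ∑ t ∈ s, c t * (t : ℂ) ^ i = 0) : ∀ t ∈ s, c t = 0 := by
  classical
  intro t ht
  have h1 : ∀ P : Polynomial ℂ, ∑ u ∈ s, c u * P.eval (u : ℂ) = 0 := by
    intro P
    simp_rw [Polynomial.eval_eq_sum_range, Finset.mul_sum]
    rw [Finset.sum_comm]
    apply Finset.sum_eq_zero
    intro i _
    have := h i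
    calc ∑ u ∈ s, c u * (P.coeff i * (u : ℂ) ^ i) = P.coeff i * ∑ u ∈ s, c u * (u : ℂ) ^ i := by
          rw [Finset.mul_sum]; apply Finset.sum_congr rfl; intro u _; ring
      _ = 0 := by rw [this, mul_zero]
  have h2 := h1 (∏ u ∈ s.erase t, (Polynomial.X - Polynomial.C (u : ℂ)))
  simp only [Polynomial.eval_prod, Polynomial.eval_sub, Polynomial.eval_X, Polynomial.eval_C] at h2
  rw [← Finset.add_sum_erase _ _ ht] at h2
  have h3 : ∑ x ∈ s.erase t, c x * ∏ u ∈ s.erase t, ((x : ℂ) - (u : ℂ)) = 0 := by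
    apply Finset.sum_eq_zero
    intro x hx
    rw [Finset.prod_eq_zero hx (by ring), mul_zero]
  rw [h3, add_zero] at h2
  rcases mul_eq_zero.1 h2 with h4 | h4
  · exact h4
  · exfalso
    obtain ⟨u, hu, hu2⟩ := Finset.prod_eq_zero_iff.1 h4
    apply (Finset.mem_erase.1 hu).1
    have : (t : ℂ) = (u : ℂ) := sub_eq_zero.1 hu2
    exact (Complex.ofReal_injective this).symm

end Pool.Agent.H586R3
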