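import Mathlib

set_option autoImplicit false

open Cardinal Set TopologicalSpace Topology

namespace Pool.Agent.H586R3

variable {F : Type} [AddCommGroup F] [Module ℂ F]

/-- transfinite choice of vectors -/
theorem exists_family {I : Type} (hI : #I ≤ 𝔠) {Z : Type} (Y : Z → Submodule ℂ F)
    (T : I → Set F)
    (hT : ∀ i, ∀ A : Set F, #A < 𝔠 → ∃ x ∈ T i, ∀ ζ, x ∉ Y ζ ⊔ Submodule.span ℂ A) :
    ∃ g : I → F, (∀ i, g i ∈ T i) ∧
      ∀ ζ, ∀ e ∈ Submodule.span ℂ (range g), e ∈ Y ζ → e = 0 := by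
  classical
  obtain ⟨r, wo, hr⟩ := Cardinal.exists_ord_eq I
  let _ : LinearOrder I := linearOrderOfSTO r
  have hwf : WellFounded r := wo.wf
  have hseg : ∀ i : I, #{j : I // r j i} < #I := by
    intro i
    have := Ordinal.typein_lt_type r i
    rw [← hr, Cardinal.lt_ord] at this
    exact this
  set pick : I → Set F → F := fun i A => if h : #A < 𝔠 then Classical.choose (hT i A h) else 0
    with hpick
  set g : I → F := hwf.fix (fun i ih => pick i (range (fun j : {j // r j i} => ih j.1 j.2)))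
    with hg
  have hgi : ∀ i, g i = pick i (range (fun j : {j // r j i} => g j.1)) := by
    intro i
    rw [hg, WellFounded.fix_eq]
  have hcard : ∀ i, #(range (fun j : {j // r j i} => g j.1)) < 𝔠 := by
    intro i
    exact (Cardinal.mk_range_le).trans_lt ((hseg i).trans_le hI)
  have hspec : ∀ i, g i ∈ T i ∧
      ∀ ζ, g i ∉ Y ζ ⊔ Submodule.span ℂ (range (fun j : {j // r j i} => g j.1)) := by
    intro i
    have h := Classical.choose_spec (hT i _ (hcard i))
    rw [hgi i]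
    simp only [hpick, dif_pos (hcard i)]
    exact h
  refine ⟨g, fun i => (hspec i).1, fun ζ e he heY => ?_⟩
  by_contra hne
  obtain ⟨c, hc⟩ := (Finsupp.mem_span_range_iff_exists_finsupp).1 he
  have hsupp : c.support.Nonempty := by
    rw [Finset.nonempty_iff_ne_empty]
    intro h0
    apply hne
    rw [← hc, Finsupp.sum, h0, Finset.sum_empty]
  set i := c.support.max' hsupp with hi
  have hmem : i ∈ c.support := Finset.max'_mem _ _
  apply (hspec i).2 ζ
  have hci : c i ≠ 0 := Finsupp.mem_support_iff.1 hmem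
  have hsplit : c i • g i = e - ∑ j ∈ c.support.erase i, c j • g j := by
    rw [← hc, Finsupp.sum, ← Finset.add_sum_erase _ _ hmem]
    abel
  have h2 : g i = (c i)⁻¹ • (e - ∑ j ∈ c.support.erase i, c j • g j) := by
    rw [← hsplit, smul_smul, inv_mul_cancel₀ hci, one_smul]
  rw [h2]
  apply Submodule.smul_mem
  apply Submodule.sub_mem
  · exact Submodule.mem_sup_left heY
  · apply Submodule.mem_sup_right
    apply Submodule.sum_mem
    intro j hj
    apply Submodule.smul_mem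
    apply Submodule.subset_span
    have hjlt : j < i := Finset.lt_max'_of_mem_erase_max' _ _ hj
    exact ⟨⟨j, hjlt⟩, rfl⟩

theorem exists_avoid {Z : Type} [Countable Z] (Y : Z → Submodule ℂ F) (S : Set F)
    (hS : 𝔠 ≤ #S) (hli : ∀ ζ, LinearIndependent ℂ (fun x : S => (Y ζ).mkQ (x : F)))
    (A : Set F) (hA : #A < 𝔠) :
    ∃ x ∈ S, ∀ ζ, x ∉ Y ζ ⊔ Submodule.span ℂ A := by
  classical
  by_contra hcon
  push Not at hcon
  set B : Z → Set F := fun ζ => {x ∈ S | x ∈ Y ζ ⊔ Submodule.span ℂ A} with hB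
  have hSB : S ⊆ ⋃ ζ, B ζ := by
    intro x hx
    obtain ⟨ζ, hζ⟩ := hcon x hx
    exact mem_iUnion.2 ⟨ζ, hx, hζ⟩
  have hBcard : ∀ ζ, #(B ζ) ≤ #A := by
    intro ζ
    set V : Submodule ℂ (F ⧸ Y ζ) := Submodule.map (Y ζ).mkQ (Submodule.span ℂ A) with hV
    have hmemV : ∀ x : B ζ, (Y ζ).mkQ (x : F) ∈ V := by
      rintro ⟨x, hxS, hx⟩
      obtain ⟨y, hy, a, ha, rfl⟩ := Submodule.mem_sup.1 hx
      refine ⟨a, ha, ?_⟩
      simp only [map_add]
      rw [(Submodule.Quotient.mk_eq_zero (Y ζ)).2 hy |> fun h => (show (Y ζ).mkQ y = 0 from h),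
        zero_add]
    have hli2 : LinearIndependent ℂ (fun x : B ζ => (Y ζ).mkQ (x : F)) :=
      (hli ζ).comp (fun x : B ζ => (⟨x.1, x.2.1⟩ : S)) (by
        intro a b hab
        have := congrArg (fun z : S => (z : F)) hab
        exact Subtype.ext this)
    have hli3 : LinearIndependent ℂ (fun x : B ζ => (⟨(Y ζ).mkQ (x : F), hmemV x⟩ : V)) := by
      apply LinearIndependent.of_comp V.subtype
      exact hli2
    have h1 := hli3.cardinal_le_rank
    refine h1.trans ?_
    rw [hV, Submodule.map_span]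
    exact (rank_span_le _).trans Cardinal.mk_image_le
  have h1 : #S ≤ ℵ₀ * #A := by
    calc #S ≤ #(⋃ ζ, B ζ) := Cardinal.mk_le_mk_of_subset hSB
      _ ≤ Cardinal.sum (fun ζ => #(B ζ)) := Cardinal.mk_iUnion_le_sum_mk
      _ ≤ Cardinal.sum (fun _ : Z => #A) := Cardinal.sum_le_sum _ _ hBcard
      _ = #Z * #A := by simp
      _ ≤ ℵ₀ * #A := by
        gcongr
        exact Cardinal.mk_le_aleph0
  have h2 : ℵ₀ * #A < 𝔠 :=
    Cardinal.mul_lt_of_lt Cardinal.aleph0_le_continuum Cardinal.aleph0_lt_continuum hA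
  exact absurd (hS.trans h1) (not_le.2 h2)

/-- a comeagre set of parameters has the cardinality of the continuum near `0` -/
theorem card_of_residual {T : Set ℝ} (hT : T ∈ residual ℝ) {δ : ℝ} (hδ : 0 < δ) :
    𝔠 ≤ #(T ∩ Ioo (-δ) δ : Set ℝ) := by
  by_contra hlt
  rw [not_le] at hlt
  have h1 : #(Ioo (-δ) δ) ≤ #((T ∩ Ioo (-δ) δ : Set ℝ) × (T ∩ Ioo (-δ) δ : Set ℝ)) := by
    have hsub : Ioo (-δ) δ ⊆ range (fun p : (T ∩ Ioo (-δ) δ : Set ℝ) × (T ∩ Ioo (-δ) δ : Set ℝ) =>
        (p.1 : ℝ) + (p.2 : ℝ)) := by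
      intro x hx
      have hT' : (fun s : ℝ => x - s) ⁻¹' T ∈ residual ℝ := by
        have hh : (Homeomorph.subLeft x) ⁻¹' T ∈ residual ℝ := by
          rw [mem_residual] at hT ⊢
          obtain ⟨t, ht, htG, htd⟩ := hT
          refine ⟨(Homeomorph.subLeft x) ⁻¹' t, preimage_mono ht, ?_, ?_⟩
          · exact htG.preimage (Homeomorph.subLeft x).continuous
          · exact htd.preimage (Homeomorph.subLeft x).isOpenMap
        exact hh
      have hTT : T ∩ (fun s : ℝ => x - s) ⁻¹' T ∈ residual ℝ := Filter.inter_mem hT hT'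
      have hd := dense_of_mem_residual hTT
      have hx' : |x| < δ := abs_lt.2 hx
      obtain ⟨s, hs, hsT⟩ := hd.exists_mem_open (Metric.isOpen_ball (x := x / 2) (ε := δ / 2)) ⟨x / 2, Metric.mem_ball_self (by linarith)⟩
      rw [Metric.mem_ball, Real.dist_eq] at hsT
      have hxl := abs_lt.1 hx'
      have hsl := abs_lt.1 hsT
      refine ⟨⟨⟨s, hs.1, ?_⟩, ⟨x - s, hs.2, ?_⟩⟩, ?_⟩
      · constructor <;> linarith [hxl.1, hxl.2, hsl.1, hsl.2]
      · constructor <;> linarith [hxl.1, hxl.2, hsl.1, hsl.2]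
      · simp
    exact (Cardinal.mk_le_mk_of_subset hsub).trans Cardinal.mk_range_le
  rw [Cardinal.mk_Ioo_real (by linarith)] at h1
  have h2 : #((T ∩ Ioo (-δ) δ : Set ℝ) × (T ∩ Ioo (-δ) δ : Set ℝ)) < 𝔠 := by
    rw [Cardinal.mk_prod, Cardinal.lift_id]
    exact Cardinal.mul_lt_of_lt Cardinal.aleph0_le_continuum hlt hlt
  exact absurd h1 (not_le.2 h2)


variable [TopologicalSpace F]

theorem exists_large_independent [BaireSpace F]
    (m : ℝ → F → F) (hm : ∀ t, Continuous (m t)) (hmt : ∀ f, Continuous fun t => m t f)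
    (m0 : ∀ f, m 0 f = f) (madd : ∀ s t f, m s (m t f) = m (s + t) f)
    {Z : Type} [Countable Z] [Nonempty Z] (Y : Z → Submodule ℂ F)
    (hY : ∀ ζ, IsMeagre (Y ζ : Set F))
    (hind : ∀ ζ, ∀ f ∉ Y ζ, LinearIndependent ℂ (fun t : ℝ => (Y ζ).mkQ (m t f)))
    (D U : Set F) (hD : D ∈ residual F) (hU : IsOpen U) (hUne : U.Nonempty) :
    ∃ S ⊆ U ∩ D, 𝔠 ≤ #S ∧ ∀ ζ, LinearIndependent ℂ (fun x : S => (Y ζ).mkQ (x : F)) := by
  classical
  -- the homeomorphisms
  have hinv : ∀ t f, m t (m (-t) f) = f := by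
    intro t f; rw [madd]; simp [m0]
  have hinv' : ∀ t f, m (-t) (m t f) = f := by
    intro t f; rw [madd]; simp [m0]
  obtain ⟨W0, hW0D, hW0, hW0d⟩ := mem_residual.1 hD
  obtain ⟨W, hWo, hWeq⟩ := isGδ_iff_eq_iInter_nat.1 hW0
  have hWd : ∀ n, Dense (W n) := fun n => hW0d.mono (hWeq ▸ iInter_subset _ n)
  -- a comeagre set of good f
  obtain ⟨b, hbc, hbne, hb⟩ := exists_countable_basis ℝ
  have hb' := hb
  set G1 : Set F := ⋂ n : ℕ, ⋂ V ∈ b, {f : F | ∃ t ∈ V, m t f ∈ W n} with hG1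
  have hG1res : G1 ∈ residual F := by
    rw [hG1, countable_iInter_mem]
    intro n
    rw [countable_bInter_mem hbc]
    intro V hV
    have hVne : V.Nonempty := by
      by_contra h
      rw [not_nonempty_iff_eq_empty] at h
      exact hbne (h ▸ hV)
    obtain ⟨t0, ht0⟩ := hVne
    refine Filter.mem_of_superset (x := m t0 ⁻¹' W n) ?_ (fun f hf => ⟨t0, ht0, hf⟩)
    apply residual_of_dense_open ((hWo n).preimage (hm t0))
    have : m t0 ⁻¹' W n = m (-t0) '' W n := by
      ext f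
      constructor
      · intro hf; exact ⟨m t0 f, hf, hinv' t0 f⟩
      · rintro ⟨g, hg, rfl⟩
        show m t0 (m (-t0) g) ∈ W n
        rw [hinv]; exact hg
    rw [this]
    have hsurj : Function.Surjective (m (-t0)) := fun f => ⟨m t0 f, hinv' t0 f⟩
    exact hsurj.denseRange.dense_image (hm (-t0)) (hWd n)
  have hG2res : (⋂ ζ, (Y ζ : Set F)ᶜ) ∈ residual F := by
    rw [countable_iInter_mem]
    exact fun ζ => hY ζ
  have hd := dense_of_mem_residual (Filter.inter_mem hG1res hG2res)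
  obtain ⟨f, hf, hfU⟩ := hd.exists_mem_open hU hUne
  obtain ⟨hf1, hf2⟩ := hf
  set T : Set ℝ := ⋂ n : ℕ, {t : ℝ | m t f ∈ W n} with hT
  have hTres : T ∈ residual ℝ := by
    rw [hT, countable_iInter_mem]
    intro n
    apply residual_of_dense_open ((hWo n).preimage (hmt f))
    rw [hb.dense_iff]
    intro V hV hVne
    have := mem_iInter₂.1 (mem_iInter.1 hf1 n) V hV
    obtain ⟨t, ht, ht2⟩ := this
    exact ⟨t, ht, ht2⟩
  -- nearness
  have hUopen : IsOpen ((fun t => m t f) ⁻¹' U) := hU.preimage (hmt f)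
  have h0 : (0 : ℝ) ∈ ((fun t => m t f) ⁻¹' U) := by
    show m 0 f ∈ U
    rw [m0]; exact hfU
  obtain ⟨δ, hδ, hδU⟩ := Metric.isOpen_iff.1 hUopen 0 h0
  have hcard := card_of_residual hTres hδ
  -- injectivity
  have hindf : ∀ ζ, LinearIndependent ℂ (fun t : ℝ => (Y ζ).mkQ (m t f)) := by
    intro ζ
    exact hind ζ f (mem_iInter.1 hf2 ζ)
  have hinj : Function.Injective (fun t => m t f) := by
    obtain ⟨ζ⟩ := ‹Nonempty Z›
    intro s t hst
    exact (hindf ζ).injective (by simp only at hst ⊢; rw [hst])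
  refine ⟨(fun t => m t f) '' (T ∩ Ioo (-δ) δ), ?_, ?_, ?_⟩
  · rintro _ ⟨t, ⟨htT, htδ⟩, rfl⟩
    refine ⟨hδU ?_, hW0D ?_⟩
    · rw [Metric.mem_ball, Real.dist_eq, sub_zero, abs_lt]; exact htδ
    · rw [hWeq]
      exact mem_iInter.2 fun n => mem_iInter.1 htT n
  · rw [Cardinal.mk_image_eq hinj]
    exact hcard
  · intro ζ
    have h1 : LinearIndependent ℂ
        (fun t : (T ∩ Ioo (-δ) δ : Set ℝ) => (Y ζ).mkQ (m (t : ℝ) f)) :=
      (hindf ζ).comp _ Subtype.val_injective
    set e : (T ∩ Ioo (-δ) δ : Set ℝ) ≃ ((fun t => m t f) '' (T ∩ Ioo (-δ) δ) : Set F) :=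
      Equiv.Set.image _ _ hinj with he
    rw [← linearIndependent_equiv e]
    exact h1

theorem card_gdelta_le [SecondCountableTopology F] : #{D : Set F | IsGδ D} ≤ 𝔠 := by
  have hle : #{D : Set F | IsGδ D} ≤ #{t : Set F | @MeasurableSet F (borel F) t} := by
    apply Cardinal.mk_le_mk_of_subset
    intro D hD
    borelize F
    exact IsGδ.measurableSet hD
  refine hle.trans ?_
  have h2 : borel F = MeasurableSpace.generateFrom (countableBasis F) :=
    (isBasis_countableBasis F).borel_eq_generateFrom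
  rw [h2]
  apply MeasurableSpace.cardinal_measurableSet_le_continuum
  have : (countableBasis F).Countable := countable_countableBasis F
  exact (Cardinal.le_aleph0_iff_set_countable.2 this).trans Cardinal.aleph0_le_continuum

/-- The abstract construction of a dense Baire subspace avoiding countably many subspaces. -/
theorem exists_baire_subspace [BaireSpace F] [SecondCountableTopology F]
    (m : ℝ → F → F) (hm : ∀ t, Continuous (m t)) (hmt : ∀ f, Continuous fun t => m t f)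
    (m0 : ∀ f, m 0 f = f) (madd : ∀ s t f, m s (m t f) = m (s + t) f)
    {Z : Type} [Countable Z] [Nonempty Z] (Y : Z → Submodule ℂ F)
    (hY : ∀ ζ, IsMeagre (Y ζ : Set F))
    (hind : ∀ ζ, ∀ f ∉ Y ζ, LinearIndependent ℂ (fun t : ℝ => (Y ζ).mkQ (m t f))) :
    ∃ E : Submodule ℂ F, Dense (E : Set F) ∧ (∀ ζ, ∀ e ∈ E, e ∈ Y ζ → e = 0) ∧
      BaireSpace E := by
  classical
  set I : Type := {D : Set F // IsGδ D ∧ Dense D} × {U : Set F // U ∈ countableBasis F} with hI
  have hIcard : #I ≤ 𝔠 := by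
    rw [hI, Cardinal.mk_prod, Cardinal.lift_id, Cardinal.lift_id]
    calc #{D : Set F // IsGδ D ∧ Dense D} * #{U : Set F // U ∈ countableBasis F}
        ≤ 𝔠 * ℵ₀ := by
          gcongr
          · refine le_trans ?_ (card_gdelta_le (F := F))
            exact Cardinal.mk_le_mk_of_subset (fun D hD => hD.1)
          · exact Cardinal.le_aleph0_iff_set_countable.2 (countable_countableBasis F)
      _ = 𝔠 := by simp
  obtain ⟨g, hgT, hgE⟩ := exists_family hIcard Y (fun i : I => i.2.1 ∩ i.1.1) (by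
    rintro ⟨⟨D, hDG, hDd⟩, ⟨U, hU⟩⟩ A hA
    have hUo : IsOpen U := isOpen_of_mem_countableBasis hU
    have hUne : U.Nonempty := nonempty_of_mem_countableBasis hU
    obtain ⟨S, hSsub, hScard, hSli⟩ := exists_large_independent m hm hmt m0 madd Y hY hind D U
      (residual_of_dense_Gδ hDG hDd) hUo hUne
    obtain ⟨x, hxS, hx⟩ := exists_avoid Y S hScard hSli A hA
    exact ⟨x, hSsub hxS, hx⟩)
  set E : Submodule ℂ F := Submodule.span ℂ (range g) with hE
  have hmeet : ∀ D : Set F, IsGδ D → Dense D → Dense ((E : Set F) ∩ D) := by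
    intro D hDG hDd
    rw [(isBasis_countableBasis F).dense_iff]
    intro U hU hUne
    have := hgT ⟨⟨D, hDG, hDd⟩, ⟨U, hU⟩⟩
    exact ⟨_, this.1, Submodule.subset_span ⟨_, rfl⟩, this.2⟩
  have hEd : Dense (E : Set F) := by
    have := hmeet univ IsGδ.univ dense_univ
    rwa [inter_univ] at this
  refine ⟨E, hEd, fun ζ e he => hgE ζ e he, ⟨?_⟩⟩
  intro f hfo hfd
  choose W hWo hWf using fun n => isOpen_induced_iff.1 (hfo n)
  have hWd : ∀ n, Dense (W n) := by
    intro n
    have h1 : Dense ((↑) '' (f n) : Set F) := hEd.denseRange_val.dense_image continuous_subtype_val (hfd n)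
    refine h1.mono ?_
    rintro _ ⟨x, hx, rfl⟩
    rw [← hWf n] at hx
    exact hx
  have hG : IsGδ (⋂ n, W n) := IsGδ.iInter_of_isOpen hWo
  have hGd : Dense (⋂ n, W n) := dense_iInter_of_isOpen_nat hWo hWd
  have h2 := hmeet _ hG hGd
  have h3 : (⋂ n, f n) = (↑) ⁻¹' (⋂ n, W n) := by
    rw [preimage_iInter]
    exact iInter_congr fun n => (hWf n).symm
  rw [h3]
  rw [Topology.IsInducing.subtypeVal.dense_iff]
  intro x
  refine closure_mono ?_ (h2 x.1)
  rintro y ⟨hyE, hyW⟩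
  exact ⟨⟨y, hyE⟩, hyW, rfl⟩

end Pool.Agent.H586R3
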