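import Mathlib
import Pool.Agent.H586R3.BaireSub
import Pool.Agent.H586R3.AInfGrowth

set_option autoImplicit false

open Set Topology Filter Complex

namespace Pool.Agent.H586R3

variable {G : Set ℂ}

lemma c_smul_add (a : ℂ) (x y : C(closure G, ℂ)) : a • (x + y) = a • x + a • y := by
  ext; simp [mul_add]

lemma c_smul_smul (a b : ℂ) (x : C(closure G, ℂ)) : a • b • x = (a * b) • x := by
  ext; simp [mul_assoc]

lemma c_smul_comm (a b : ℂ) (x : C(closure G, ℂ)) : a • b • x = b • a • x := by
  ext; simp [mul_left_comm]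

lemma c_zero_smul (x : C(closure G, ℂ)) : (0 : ℂ) • x = 0 := by
  ext; simp

open Classical in
/-- extension of a function on the closure of `G` by zero -/
noncomputable def ext (g : C(closure G, ℂ)) (z : ℂ) : ℂ :=
  if h : z ∈ closure G then g ⟨z, h⟩ else 0

lemma ext_of_mem (g : C(closure G, ℂ)) {z : ℂ} (h : z ∈ closure G) : ext g z = g ⟨z, h⟩ := by
  simp [ext, h]

lemma ext_add (g h : C(closure G, ℂ)) (z : ℂ) : ext (g + h) z = ext g z + ext h z := by
  by_cases hz : z ∈ closure G <;> simp [ext, hz]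

lemma ext_smul (c : ℂ) (g : C(closure G, ℂ)) (z : ℂ) : ext (c • g) z = c * ext g z := by
  by_cases hz : z ∈ closure G <;> simp [ext, hz]

lemma ext_zero (z : ℂ) : ext (0 : C(closure G, ℂ)) z = 0 := by
  by_cases hz : z ∈ closure G <;> simp [ext, hz]

lemma continuousOn_ext (g : C(closure G, ℂ)) : ContinuousOn (ext g) (closure G) := by
  rw [continuousOn_iff_continuous_domRestrict]
  have : (closure G).domRestrict (ext g) = g := by
    funext z
    simp [Set.domRestrict, ext]
  rw [this]
  exact g.continuous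

lemma tlu_ext {ι : Type*} {l : Filter ι} {g' : ι → C(closure G, ℂ)} {g : C(closure G, ℂ)}
    (h : Tendsto g' l (𝓝 g)) (hG : IsOpen G) :
    TendstoLocallyUniformlyOn (fun i => ext (g' i)) (ext g) l G := by
  rw [tendstoLocallyUniformlyOn_iff_forall_isCompact hG]
  intro K hKG hK
  have h1 := (ContinuousMap.tendsto_iff_forall_isCompact_tendstoUniformlyOn.1 h)
    ((↑) ⁻¹' K : Set (closure G)) (by
      exact (isClosed_closure.isClosedEmbedding_subtypeVal).isCompact_preimage hK)
  rw [Metric.tendstoUniformlyOn_iff] at h1 ⊢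
  intro ε hε
  filter_upwards [h1 ε hε] with i hi z hz
  have hz' : z ∈ closure G := subset_closure (hKG hz)
  rw [ext_of_mem _ hz', ext_of_mem _ hz']
  exact hi ⟨z, hz'⟩ hz

variable (G) in
/-- the sequences `(f, f', f'', ...)` for `f ∈ A^∞(G)`, extended continuously to the closure -/
def jets : Submodule ℂ (ℕ → C(closure G, ℂ)) where
  carrier := {g | ∀ j, ∀ z ∈ G, HasDerivAt (ext (g j)) (ext (g (j + 1)) z) z}
  zero_mem' := by
    intro j z _
    have : ext ((0 : ℕ → C(closure G, ℂ)) j) = fun _ => 0 := by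
      funext w; exact ext_zero w
    rw [this]
    have h2 : ext ((0 : ℕ → C(closure G, ℂ)) (j + 1)) z = 0 := ext_zero z
    rw [h2]
    exact hasDerivAt_const z 0
  add_mem' := by
    intro g h hg hh j z hz
    have : ext ((g + h) j) = fun w => ext (g j) w + ext (h j) w := by
      funext w; exact ext_add _ _ w
    rw [this]
    have h2 : ext ((g + h) (j + 1)) z = ext (g (j + 1)) z + ext (h (j + 1)) z := ext_add _ _ z
    rw [h2]
    exact (hg j z hz).add (hh j z hz)
  smul_mem' := by
    intro c g hg j z hz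
    have : ext ((c • g) j) = fun w => c * ext (g j) w := by
      funext w; exact ext_smul _ _ w
    rw [this]
    have h2 : ext ((c • g) (j + 1)) z = c * ext (g (j + 1)) z := ext_smul _ _ z
    rw [h2]
    exact (hg j z hz).const_mul c

lemma isClosed_jets (hG : IsOpen G) : IsClosed (jets G : Set (ℕ → C(closure G, ℂ))) := by
  rw [isClosed_iff_forall_filter]
  intro g F hF hF1 hF2 j z hz
  have hj : ∀ k, Tendsto (fun h : ℕ → C(closure G, ℂ) => h k) F (𝓝 (g k)) := fun k =>
    ((continuous_apply k).tendsto g).mono_left hF2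
  refine hasDerivAt_of_tendstoLocallyUniformlyOn (l := F) (f := fun h w => ext (h j) w)
    (f' := fun h w => ext (h (j + 1)) w) (g' := ext (g (j + 1))) hG
    (tlu_ext (hj (j + 1)) hG) ?_ ?_ hz
  · have : ∀ᶠ h in F, h ∈ (jets G : Set (ℕ → C(closure G, ℂ))) := hF1 (mem_principal_self _)
    filter_upwards [this] with h hh x hx
    exact hh j x hx
  · intro x hx
    exact (tlu_ext (hj j) hG).tendsto_at hx

instance : LocallyCompactSpace (closure G) :=
  (isClosed_closure.isClosedEmbedding_subtypeVal).locallyCompactSpace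

instance : SecondCountableTopology (jets G) := TopologicalSpace.Subtype.secondCountableTopology _

theorem baire_jets (hG : IsOpen G) : BaireSpace (jets G) := by
  have h1 : CompleteSpace (jets G) := (isClosed_jets hG).isComplete.completeSpace_coe
  have h2 : (uniformity (jets G)).IsCountablyGenerated := by
    have h3 : (uniformity (jets G)) = Filter.comap (fun q : jets G × jets G =>
      ((q.1 : ℕ → C(closure G, ℂ)), (q.2 : ℕ → C(closure G, ℂ)))) (uniformity _) :=
      uniformity_subtype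
    rw [h3]
    infer_instance
  infer_instance

/-- two jets with the same function coincide -/
lemma jets_ext {g h : ℕ → C(closure G, ℂ)} (hG : IsOpen G) (hg : g ∈ jets G) (hh : h ∈ jets G)
    (h0 : ∀ z ∈ G, ext (g 0) z = ext (h 0) z) : g = h := by
  have key : ∀ j, ∀ z ∈ G, ext (g j) z = ext (h j) z := by
    intro j
    induction j with
    | zero => exact h0
    | succ j ih =>
      intro z hz
      have h1 := hg j z hz
      have h2 := hh j z hz
      have h3 : ext (g j) =ᶠ[𝓝 z] ext (h j) := by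
        filter_upwards [hG.mem_nhds hz] with w hw using ih w hw
      exact h1.unique (h2.congr_of_eventuallyEq h3)
  funext j
  have h1 : EqOn (ext (g j)) (ext (h j)) (closure G) := by
    have : EqOn (ext (g j)) (ext (h j)) G := fun z hz => key j z hz
    exact this.of_subset_closure (continuousOn_ext _) (continuousOn_ext _) subset_closure
      (subset_refl _)
  ext ⟨z, hz⟩
  have := h1 hz
  rwa [ext_of_mem _ hz, ext_of_mem _ hz] at this

/-- the function `e^{tz}` -/
noncomputable def expC (t : ℝ) : C(closure G, ℂ) :=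
  ⟨fun z => Complex.exp ((t : ℂ) * (z : ℂ)), by fun_prop⟩

lemma continuous_expC : Continuous (fun t : ℝ => (expC t : C(closure G, ℂ))) := by
  apply ContinuousMap.continuous_of_continuous_uncurry
  have : (Function.uncurry fun (x : ℝ) (y : closure G) => (expC x : C(closure G, ℂ)) y) =
      fun p : ℝ × closure G => Complex.exp ((p.1 : ℂ) * (p.2 : ℂ)) := by
    funext p; rfl
  rw [this]
  fun_prop

lemma expC_add (s t : ℝ) : (expC (s + t) : C(closure G, ℂ)) = expC s * expC t := by
  ext z
  simp only [expC, ContinuousMap.coe_mk, ContinuousMap.mul_apply, ← Complex.exp_add]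
  congr 1
  push_cast
  ring

lemma expC_zero : (expC 0 : C(closure G, ℂ)) = 1 := by
  ext z
  simp [expC]

/-- the operator `f ↦ f' + t f` on jets -/
noncomputable def shiftT (t : ℝ) : (ℕ → C(closure G, ℂ)) →ₗ[ℂ] (ℕ → C(closure G, ℂ)) where
  toFun g := fun j => (t : ℂ) • g j + g (j + 1)
  map_add' g h := by
    funext j
    show (t : ℂ) • (g j + h j) + (g (j + 1) + h (j + 1)) =
      ((t : ℂ) • g j + g (j + 1)) + ((t : ℂ) • h j + h (j + 1))
    rw [c_smul_add]; abel
  map_smul' c g := by
    funext j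
    show (t : ℂ) • (c • g j) + c • g (j + 1) = c • ((t : ℂ) • g j + g (j + 1))
    rw [c_smul_add, c_smul_comm]

lemma shiftT_mem {g : ℕ → C(closure G, ℂ)} (hg : g ∈ jets G) (t : ℝ) : shiftT t g ∈ jets G := by
  intro j z hz
  have h1 : ext (shiftT t g j) = fun w => (t : ℂ) * ext (g j) w + ext (g (j + 1)) w := by
    funext w
    show ext ((t : ℂ) • g j + g (j + 1)) w = _
    rw [ext_add, ext_smul]
  have h2 : ext (shiftT t g (j + 1)) z = (t : ℂ) * ext (g (j + 1)) z + ext (g (j + 2)) z := by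
    show ext ((t : ℂ) • g (j + 1) + g (j + 1 + 1)) z = _
    rw [ext_add, ext_smul]
  rw [h1, h2]
  exact ((hg j z hz).const_mul _).add (hg (j + 1) z hz)

lemma shiftT_pow_mem {g : ℕ → C(closure G, ℂ)} (hg : g ∈ jets G) (t : ℝ) (n : ℕ) :
    (shiftT t ^ n) g ∈ jets G := by
  induction n with
  | zero => simpa using hg
  | succ n ih =>
    rw [pow_succ']
    exact shiftT_mem ih t

/-- multiplication by `e^{tz}` on jets -/
noncomputable def mulExp (t : ℝ) (g : ℕ → C(closure G, ℂ)) : ℕ → C(closure G, ℂ) :=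
  fun j => expC t * ((shiftT t ^ j) g) 0

lemma mulExp_zero_comp (t : ℝ) (g : ℕ → C(closure G, ℂ)) : mulExp t g 0 = expC t * g 0 := by
  simp [mulExp]

lemma ext_mul (g h : C(closure G, ℂ)) (z : ℂ) : ext (g * h) z = ext g z * ext h z := by
  by_cases hz : z ∈ closure G <;> simp [ext, hz]

lemma ext_expC {t : ℝ} {z : ℂ} (hz : z ∈ closure G) :
    ext (expC t : C(closure G, ℂ)) z = Complex.exp ((t : ℂ) * z) := by
  rw [ext_of_mem _ hz]; rfl

lemma mulExp_mem (hG : IsOpen G) {g : ℕ → C(closure G, ℂ)} (hg : g ∈ jets G) (t : ℝ) :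
    mulExp t g ∈ jets G := by
  intro j z hz
  set h := (shiftT t ^ j) g with hh
  have hhm : h ∈ jets G := shiftT_pow_mem hg t j
  have h1 : ext (mulExp t g j) =ᶠ[𝓝 z] fun w => Complex.exp ((t : ℂ) * w) * ext (h 0) w := by
    filter_upwards [hG.mem_nhds hz] with w hw
    show ext (expC t * h 0) w = _
    rw [ext_mul, ext_expC (subset_closure hw)]
  have h2 : ext (mulExp t g (j + 1)) z =
      Complex.exp ((t : ℂ) * z) * ((t : ℂ) * ext (h 0) z + ext (h 1) z) := by
    show ext (expC t * ((shiftT t ^ (j + 1)) g) 0) z = _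
    rw [pow_succ', ext_mul, ext_expC (subset_closure hz)]
    congr 1
    show ext ((t : ℂ) • h 0 + h (0 + 1)) z = _
    rw [ext_add, ext_smul]
  refine HasDerivAt.congr_of_eventuallyEq ?_ h1
  rw [h2]
  have h3 : HasDerivAt (fun w : ℂ => Complex.exp ((t : ℂ) * w)) (Complex.exp ((t : ℂ) * z) * t) z := by
    have := ((hasDerivAt_id z).const_mul (t : ℂ)).cexp
    simpa using this
  have h4 := h3.mul (hhm 0 z hz)
  refine h4.congr_deriv ?_
  simp only [zero_add]
  ring

/-- binomial formula for the jets of `e^{tz} f` -/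
lemma shiftT_pow_apply (t : ℝ) (g : ℕ → C(closure G, ℂ)) (j : ℕ) :
    ((shiftT t ^ j) g) 0 = ∑ i ∈ Finset.range (j + 1), (((t : ℂ) ^ i * (j.choose i : ℂ)) • g (j - i)) := by
  set σ : (ℕ → C(closure G, ℂ)) →ₗ[ℂ] (ℕ → C(closure G, ℂ)) := shiftT 0 with hσ
  have hσ1 : ∀ g : ℕ → C(closure G, ℂ), ∀ j, σ g j = g (j + 1) := by
    intro g j
    show ((0 : ℝ) : ℂ) • g j + g (j + 1) = _
    rw [Complex.ofReal_zero, c_zero_smul, zero_add]
  have hσn : ∀ n : ℕ, ∀ g : ℕ → C(closure G, ℂ), ∀ j, (σ ^ n) g j = g (j + n) := by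
    intro n
    induction n with
    | zero => intro g j; simp
    | succ n ih =>
      intro g j
      rw [pow_succ']
      show σ ((σ ^ n) g) j = _
      rw [hσ1, ih]
      congr 1
      ring
  have h1 : (shiftT t : (ℕ → C(closure G, ℂ)) →ₗ[ℂ] (ℕ → C(closure G, ℂ))) =
      ((t : ℂ) • (1 : (ℕ → C(closure G, ℂ)) →ₗ[ℂ] (ℕ → C(closure G, ℂ)))) + σ := by
    apply LinearMap.ext
    intro g
    funext j
    show (t : ℂ) • g j + g (j + 1) = (t : ℂ) • g j + σ g j
    rw [hσ1]
  have hc : Commute ((t : ℂ) • (1 : (ℕ → C(closure G, ℂ)) →ₗ[ℂ] (ℕ → C(closure G, ℂ)))) σ :=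
    (Commute.one_left σ).smul_left _
  rw [h1, hc.add_pow]
  simp only [LinearMap.sum_apply, Finset.sum_apply]
  apply Finset.sum_congr rfl
  intro i _
  rw [smul_pow, one_pow]
  have h5 : (((t : ℂ) ^ i • (1 : (ℕ → C(closure G, ℂ)) →ₗ[ℂ] (ℕ → C(closure G, ℂ)))) * σ ^ (j - i) *
      ((j.choose i : ℕ) : (ℕ → C(closure G, ℂ)) →ₗ[ℂ] (ℕ → C(closure G, ℂ)))) g
      = ((t : ℂ) ^ i) • (σ ^ (j - i)) ((j.choose i : ℂ) • g) := by
    simp only [Module.End.mul_apply, LinearMap.smul_apply, Module.End.one_apply]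
    congr 2
    rw [Module.End.natCast_apply]
    rw [← Nat.cast_smul_eq_nsmul ℂ]
  rw [h5, map_smul, smul_smul]
  show ((t : ℂ) ^ i * (j.choose i : ℂ)) • (σ ^ (j - i)) g 0 = _
  rw [hσn]
  simp

end Pool.Agent.H586R3
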