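import Mathlib
import Pool.Agent.H586R3.AInfModel

set_option autoImplicit false

open Set Topology Filter Complex

namespace Pool.Agent.H586R3

variable {G : Set ℂ}

variable (G) in
/-- the space of jets as a type of its own -/
def JetSp : Type := ↥(jets G)

noncomputable instance : AddCommGroup (JetSp G) := inferInstanceAs (AddCommGroup ↥(jets G))
noncomputable instance : Module ℂ (JetSp G) := inferInstanceAs (Module ℂ ↥(jets G))
instance : TopologicalSpace (JetSp G) := inferInstanceAs (TopologicalSpace ↥(jets G))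
instance : IsTopologicalAddGroup (JetSp G) := inferInstanceAs (IsTopologicalAddGroup ↥(jets G))
instance : ContinuousSMul ℂ (JetSp G) := inferInstanceAs (ContinuousSMul ℂ ↥(jets G))
instance : T2Space (JetSp G) := inferInstanceAs (T2Space ↥(jets G))
instance : SecondCountableTopology (JetSp G) :=
  inferInstanceAs (SecondCountableTopology ↥(jets G))

theorem baire_JetSp (hG : IsOpen G) : BaireSpace (JetSp G) := baire_jets hG

/-- the underlying sequence -/
def JetSp.seq (g : JetSp G) : ℕ → C(closure G, ℂ) := Subtype.val g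

/-- constructor -/
def JetSp.mk' (g : ℕ → C(closure G, ℂ)) (hg : g ∈ jets G) : JetSp G := ⟨g, hg⟩

lemma JetSp.seq_mk' (g : ℕ → C(closure G, ℂ)) (hg : g ∈ jets G) : (JetSp.mk' g hg).seq = g := rfl

lemma JetSp.seq_mem (g : JetSp G) : g.seq ∈ jets G := Subtype.property g

lemma JetSp.seq_inj {g h : JetSp G} (H : g.seq = h.seq) : g = h := Subtype.ext H

lemma JetSp.continuous_seq : Continuous (JetSp.seq : JetSp G → ℕ → C(closure G, ℂ)) :=
  continuous_subtype_val

lemma JetSp.continuous_iff {X : Type} [TopologicalSpace X] (f : X → JetSp G) :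
    Continuous f ↔ ∀ j, Continuous (fun x => (f x).seq j) := by
  constructor
  · intro h j
    exact (continuous_apply j).comp (JetSp.continuous_seq.comp h)
  · intro h
    have h2 : Continuous (fun x => (f x).seq) := continuous_pi h
    exact continuous_induced_rng.2 h2

/-- evaluation of the `j`-th derivative at a point of the closure -/
noncomputable def evL (j : ℕ) (ζ : closure G) : JetSp G →ₗ[ℂ] ℂ where
  toFun g := g.seq j ζ
  map_add' _ _ := rfl
  map_smul' _ _ := rfl

lemma evL_apply (j : ℕ) (ζ : closure G) (g : JetSp G) : evL j ζ g = g.seq j ζ := rfl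

lemma evL_eq_ext (j : ℕ) {z : ℂ} (hz : z ∈ closure G) (g : JetSp G) :
    evL j ⟨z, hz⟩ g = ext (g.seq j) z := by
  rw [ext_of_mem _ hz]; rfl

lemma jet_eq_of_ev (hG : IsOpen G) {g h : JetSp G}
    (H : ∀ (z : ℂ) (hz : z ∈ G), evL 0 ⟨z, subset_closure hz⟩ g = evL 0 ⟨z, subset_closure hz⟩ h) :
    g = h := by
  apply JetSp.seq_inj
  apply jets_ext hG g.seq_mem h.seq_mem
  intro z hz
  have := H z hz
  rwa [evL_eq_ext, evL_eq_ext] at this

/-- the jets at `ζ` with convergent Taylor series (geometric growth of the normalised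
coefficients) -/
def Yc (ζ : closure G) : Submodule ℂ (JetSp G) where
  carrier := {g | ∃ S : ℕ, ∀ j : ℕ, ‖evL j ζ g‖ ≤ (S : ℝ) ^ (j + 1) * (j.factorial : ℝ)}
  zero_mem' := by
    refine ⟨0, fun j => ?_⟩
    rw [map_zero]
    simp
  add_mem' := by
    rintro g h ⟨S, hS⟩ ⟨R, hR⟩
    refine ⟨S + R, fun j => ?_⟩
    rw [map_add]
    refine (norm_add_le _ _).trans ((add_le_add (hS j) (hR j)).trans ?_)
    rw [← add_mul]
    apply mul_le_mul_of_nonneg_right _ (Nat.cast_nonneg _)
    push_cast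
    exact pow_add_pow_le (Nat.cast_nonneg _) (Nat.cast_nonneg _) (by omega)
  smul_mem' := by
    rintro c g ⟨S, hS⟩
    obtain ⟨N, hN⟩ := exists_nat_ge ‖c‖
    refine ⟨(N + 1) * S, fun j => ?_⟩
    rw [map_smul, smul_eq_mul, norm_mul]
    have h2 : ‖c‖ ≤ ((N : ℝ) + 1) ^ (j + 1) := by
      have h3 : (1 : ℝ) ≤ (N : ℝ) + 1 := by
        have : (0 : ℝ) ≤ N := Nat.cast_nonneg _
        linarith
      calc ‖c‖ ≤ (N : ℝ) + 1 := by linarith
        _ ≤ ((N : ℝ) + 1) ^ (j + 1) := le_self_pow₀ h3 (by omega)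
    calc ‖c‖ * ‖evL j ζ g‖
        ≤ ((N : ℝ) + 1) ^ (j + 1) * ((S : ℝ) ^ (j + 1) * (j.factorial : ℝ)) :=
          mul_le_mul h2 (hS j) (norm_nonneg _) (by positivity)
      _ = (((N + 1) * S : ℕ) : ℝ) ^ (j + 1) * (j.factorial : ℝ) := by
          push_cast; rw [mul_pow]; ring

lemma continuous_evL (j : ℕ) (ζ : closure G) : Continuous (evL j ζ : JetSp G → ℂ) := by
  have h1 : Continuous (fun g : C(closure G, ℂ) => g ζ) := ContinuousEvalConst.continuous_eval_const ζ
  exact h1.comp ((continuous_apply j).comp JetSp.continuous_seq)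

/-- the jet of `1/(z - b)` -/
noncomputable def poleJet (b : ℂ) (hb : b ∉ closure G) : ℕ → C(closure G, ℂ) := fun j =>
  ⟨fun z => (-1) ^ j * (j.factorial : ℂ) / ((z : ℂ) - b) ^ (j + 1), by
    apply Continuous.div continuous_const
    · fun_prop
    · rintro ⟨z, hz⟩
      apply pow_ne_zero
      intro h
      apply hb
      have : z = b := sub_eq_zero.1 h
      rwa [← this]⟩

lemma poleJet_mem (hG : IsOpen G) (b : ℂ) (hb : b ∉ closure G) : poleJet b hb ∈ jets G := by
  intro j z hz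
  have hzc : z ∈ closure G := subset_closure hz
  have h1 : ext (poleJet b hb j) =ᶠ[𝓝 z]
      fun w => (-1) ^ j * (j.factorial : ℂ) / (w - b) ^ (j + 1) := by
    filter_upwards [hG.mem_nhds hz] with w hw
    rw [ext_of_mem _ (subset_closure hw)]
    rfl
  have h2 : ext (poleJet b hb (j + 1)) z =
      (-1) ^ (j + 1) * ((j + 1).factorial : ℂ) / (z - b) ^ (j + 2) := by
    rw [ext_of_mem _ hzc]
    rfl
  rw [h2]
  refine HasDerivAt.congr_of_eventuallyEq ?_ h1
  have hne : z - b ≠ 0 := by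
    intro h
    apply hb
    have : z = b := sub_eq_zero.1 h
    rwa [← this]
  have h3 : HasDerivAt (fun w : ℂ => (w - b) ^ (j + 1)) (((j + 1 : ℕ) : ℂ) * (z - b) ^ j * 1) z := by
    have := ((hasDerivAt_id' z).sub_const b).fun_pow (j + 1)
    simpa using this
  have h4 := (hasDerivAt_const z ((-1 : ℂ) ^ j * (j.factorial : ℂ))).div h3 (pow_ne_zero _ hne)
  refine h4.congr_deriv ?_
  rw [Nat.factorial_succ]
  push_cast
  field_simp
  ring

/-- `Yc ζ` is meagre when `ζ` is a limit of exterior points of the closure -/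
theorem isMeagre_Yc (hG : IsOpen G) (ζ : closure G)
    (hζ : ∀ ε : ℝ, 0 < ε → ∃ b, b ∉ closure G ∧ ‖(ζ : ℂ) - b‖ < ε) :
    IsMeagre (Yc ζ : Set (JetSp G)) := by
  have hU : (Yc ζ : Set (JetSp G)) = ⋃ S : ℕ, {g : JetSp G | ∀ j : ℕ,
      ‖evL j ζ g‖ ≤ (S : ℝ) ^ (j + 1) * (j.factorial : ℝ)} := by
    ext g
    simp only [mem_iUnion]
    rfl
  rw [hU]
  apply isMeagre_iUnion
  intro S
  apply IsNowhereDense.isMeagre
  have hcl : IsClosed {g : JetSp G | ∀ j : ℕ,
      ‖evL j ζ g‖ ≤ (S : ℝ) ^ (j + 1) * (j.factorial : ℝ)} := by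
    rw [Set.ofPred_forall]
    apply isClosed_iInter
    intro j
    exact isClosed_le (continuous_evL j ζ).norm continuous_const
  rw [hcl.isNowhereDense_iff, eq_empty_iff_forall_notMem]
  intro g hg
  -- choose an exterior point
  obtain ⟨b, hb, hbζ⟩ := hζ (1 / (2 * ((S : ℝ) + 1))) (by positivity)
  set h : JetSp G := JetSp.mk' (poleJet b hb) (poleJet_mem hG b hb) with hh
  have hcont : Continuous (fun ε : ℝ => g + (ε : ℂ) • h) :=
    continuous_const.add (Complex.continuous_ofReal.fun_smul continuous_const)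
  have hmem : ∀ᶠ (ε : ℝ) in 𝓝[>] (0 : ℝ), g + (ε : ℂ) • h ∈ {g : JetSp G | ∀ j : ℕ,
      ‖evL j ζ g‖ ≤ (S : ℝ) ^ (j + 1) * (j.factorial : ℝ)} := by
    have h1 : Tendsto (fun ε : ℝ => g + (ε : ℂ) • h) (𝓝 0) (𝓝 g) := by
      have := hcont.tendsto 0
      simpa using this
    exact (h1.mono_left nhdsWithin_le_nhds) (mem_interior_iff_mem_nhds.1 hg)
  obtain ⟨ε, hε1, hε0⟩ := (hmem.and self_mem_nhdsWithin).exists
  have hε0' : (0 : ℝ) < ε := hε0
  have hgS := interior_subset hg
  have hne : (ζ : ℂ) - b ≠ 0 := by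
    intro h0
    apply hb
    have : (ζ : ℂ) = b := sub_eq_zero.1 h0
    rw [← this]
    exact ζ.2
  have hpos : 0 < ‖(ζ : ℂ) - b‖ := norm_pos_iff.2 hne
  have key : ∀ j : ℕ, ε * 2 ^ (j + 1) ≤ 2 := by
    intro j
    have h1 := hε1 j
    have h2 := hgS j
    have h3 : evL j ζ (g + (ε : ℂ) • h) = evL j ζ g +
          (ε : ℂ) * ((-1) ^ j * (j.factorial : ℂ) / ((ζ : ℂ) - b) ^ (j + 1)) := by
      rw [map_add, map_smul]
      rfl
    rw [h3] at h1
    have h4 : ‖(ε : ℂ) * ((-1) ^ j * (j.factorial : ℂ) / ((ζ : ℂ) - b) ^ (j + 1))‖ ≤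
        2 * ((S : ℝ) ^ (j + 1) * (j.factorial : ℝ)) := by
      have h5 : (ε : ℂ) * ((-1) ^ j * (j.factorial : ℂ) / ((ζ : ℂ) - b) ^ (j + 1)) =
        (evL j ζ g +
          (ε : ℂ) * ((-1) ^ j * (j.factorial : ℂ) / ((ζ : ℂ) - b) ^ (j + 1))) -
          evL j ζ g := by ring
      rw [h5]
      refine (norm_sub_le _ _).trans ?_
      linarith
    rw [norm_mul, norm_div, norm_mul, norm_pow, norm_pow, norm_neg, norm_one, one_pow, one_mul,
      Complex.norm_real, Real.norm_eq_abs, abs_of_pos hε0', Complex.norm_natCast] at h4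
    have hfac : (0 : ℝ) < (j.factorial : ℝ) := by exact_mod_cast Nat.factorial_pos j
    have h6 : ε / ‖(ζ : ℂ) - b‖ ^ (j + 1) ≤ 2 * (S : ℝ) ^ (j + 1) := by
      have h7 : ε / ‖(ζ : ℂ) - b‖ ^ (j + 1) * (j.factorial : ℝ) ≤
          2 * (S : ℝ) ^ (j + 1) * (j.factorial : ℝ) := by
        calc ε / ‖(ζ : ℂ) - b‖ ^ (j + 1) * (j.factorial : ℝ) =
            ε * ((j.factorial : ℝ) / ‖(ζ : ℂ) - b‖ ^ (j + 1)) := by ring
          _ ≤ 2 * ((S : ℝ) ^ (j + 1) * (j.factorial : ℝ)) := h4
          _ = _ := by ring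
      exact le_of_mul_le_mul_right h7 hfac
    rw [div_le_iff₀ (by positivity)] at h6
    have h8 : ‖(ζ : ℂ) - b‖ * (2 * ((S : ℝ) + 1)) ≤ 1 := by
      have := mul_le_mul_of_nonneg_right hbζ.le (show (0 : ℝ) ≤ 2 * ((S : ℝ) + 1) by positivity)
      rwa [one_div, inv_mul_cancel₀ (by positivity)] at this
    have hS0 : (0 : ℝ) ≤ S := Nat.cast_nonneg _
    have h9 : ‖(ζ : ℂ) - b‖ * (2 * (S : ℝ)) ≤ 1 := by
      refine le_trans ?_ h8
      gcongr
      linarith
    calc ε * 2 ^ (j + 1) ≤ (2 * (S : ℝ) ^ (j + 1) * ‖(ζ : ℂ) - b‖ ^ (j + 1)) * 2 ^ (j + 1) :=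
          mul_le_mul_of_nonneg_right h6 (by positivity)
      _ = 2 * (‖(ζ : ℂ) - b‖ * (2 * (S : ℝ))) ^ (j + 1) := by
          rw [mul_pow, mul_pow]; ring
      _ ≤ 2 * 1 := by
          gcongr
          exact pow_le_one₀ (by positivity) h9
      _ = 2 := by ring
  obtain ⟨n, hn⟩ := pow_unbounded_of_one_lt (2 / ε) (one_lt_two)
  have h10 := key n
  have h11 : 2 < ε * 2 ^ n := by
    rw [div_lt_iff₀ hε0'] at hn
    linarith
  have h12 : ε * 2 ^ n ≤ ε * 2 ^ (n + 1) := by
    apply mul_le_mul_of_nonneg_left _ hε0'.le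
    exact pow_le_pow_right₀ one_le_two (Nat.le_succ n)
  linarith

/-- the constant jet -/
noncomputable def oneJet : ℕ → C(closure G, ℂ) := fun j => if j = 0 then 1 else 0

lemma oneJet_mem (hG : IsOpen G) : (oneJet : ℕ → C(closure G, ℂ)) ∈ jets G := by
  intro j z hz
  rcases Nat.eq_zero_or_pos j with h | h
  · subst h
    have h1 : ext ((oneJet : ℕ → C(closure G, ℂ)) 0) =ᶠ[𝓝 z] fun _ => 1 := by
      filter_upwards [hG.mem_nhds hz] with w hw
      rw [ext_of_mem _ (subset_closure hw)]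
      rfl
    have h2 : ext ((oneJet : ℕ → C(closure G, ℂ)) (0 + 1)) z = 0 := by
      rw [ext_of_mem _ (subset_closure hz)]
      rfl
    rw [h2]
    exact (hasDerivAt_const z (1 : ℂ)).congr_of_eventuallyEq h1
  · have h1 : ext ((oneJet : ℕ → C(closure G, ℂ)) j) = fun _ => 0 := by
      have : (oneJet : ℕ → C(closure G, ℂ)) j = 0 := by simp [oneJet, h.ne']
      rw [this]; funext w; exact ext_zero w
    have h2 : ext ((oneJet : ℕ → C(closure G, ℂ)) (j + 1)) z = 0 := by
      have : (oneJet : ℕ → C(closure G, ℂ)) (j + 1) = 0 := by simp [oneJet]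
      rw [this]; exact ext_zero z
    rw [h1, h2]
    exact hasDerivAt_const z _

theorem isMeagre_bot (hG : IsOpen G) (hne : G.Nonempty) :
    IsMeagre ((⊥ : Submodule ℂ (JetSp G)) : Set (JetSp G)) := by
  obtain ⟨z, hz⟩ := hne
  have hnt : Nontrivial (JetSp G) := by
    refine ⟨⟨JetSp.mk' oneJet (oneJet_mem hG), 0, ?_⟩⟩
    intro h
    have h1 := congrArg (fun g : JetSp G => evL 0 ⟨z, subset_closure hz⟩ g) h
    simp only [map_zero] at h1
    have h2 : evL 0 ⟨z, subset_closure hz⟩ (JetSp.mk' oneJet (oneJet_mem hG)) = (1 : ℂ) := rfl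
    rw [h2] at h1
    exact one_ne_zero h1
  have h2 : (𝓝[≠] (0 : JetSp G)).NeBot := Module.punctured_nhds_neBot ℂ (JetSp G) 0
  apply IsNowhereDense.isMeagre
  rw [Submodule.bot_coe]
  rw [(isClosed_singleton).isNowhereDense_iff]
  exact interior_singleton 0

/-- multiplication by `e^{tz}` as a map on the space of jets -/
noncomputable def mE (hG : IsOpen G) (t : ℝ) (g : JetSp G) : JetSp G :=
  JetSp.mk' (mulExp t g.seq) (mulExp_mem hG g.seq_mem t)

lemma mE_zero (hG : IsOpen G) (g : JetSp G) : mE hG 0 g = g := by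
  apply JetSp.seq_inj
  apply jets_ext hG (mE hG 0 g).seq_mem g.seq_mem
  intro z hz
  show ext (mulExp 0 g.seq 0) z = _
  rw [mulExp_zero_comp, expC_zero, one_mul]

lemma mE_add (hG : IsOpen G) (s t : ℝ) (g : JetSp G) : mE hG s (mE hG t g) = mE hG (s + t) g := by
  apply JetSp.seq_inj
  apply jets_ext hG (mE hG s (mE hG t g)).seq_mem (mE hG (s + t) g).seq_mem
  intro z hz
  show ext (mulExp s (mulExp t g.seq) 0) z = ext (mulExp (s + t) g.seq 0) z
  rw [mulExp_zero_comp, mulExp_zero_comp, mulExp_zero_comp, expC_add, mul_assoc]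

lemma mE_apply (hG : IsOpen G) (t : ℝ) (g : JetSp G) (j : ℕ) :
    (mE hG t g).seq j = expC t * ∑ i ∈ Finset.range (j + 1),
      (((t : ℂ) ^ i * (j.choose i : ℂ)) • g.seq (j - i)) := by
  show expC t * ((shiftT t ^ j) g.seq) 0 = _
  rw [shiftT_pow_apply]

lemma continuous_mE (hG : IsOpen G) (t : ℝ) : Continuous (mE hG t) := by
  rw [JetSp.continuous_iff]
  intro j
  simp_rw [mE_apply]
  apply Continuous.fun_mul continuous_const
  apply continuous_finsetSum
  intro i _
  exact ((continuous_apply (j - i)).comp JetSp.continuous_seq).fun_const_smul _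

lemma continuous_mE' (hG : IsOpen G) (g : JetSp G) : Continuous (fun t => mE hG t g) := by
  rw [JetSp.continuous_iff]
  intro j
  simp_rw [mE_apply]
  apply Continuous.fun_mul continuous_expC
  apply continuous_finsetSum
  intro i _
  exact Continuous.fun_smul (by fun_prop) continuous_const

lemma evL_mE (hG : IsOpen G) (t : ℝ) (g : JetSp G) (ζ : closure G) (j : ℕ) :
    evL j ζ (mE hG t g) = Complex.exp ((t : ℂ) * (ζ : ℂ)) * ∑ i ∈ Finset.range (j + 1),
        ((t : ℂ) ^ i * (j.choose i : ℂ)) * evL (j - i) ζ g := by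
  rw [evL_apply, mE_apply, ContinuousMap.mul_apply]
  congr 1
  rw [ContinuousMap.sum_apply]
  rfl

/-- evaluation of a linear combination of `e^{tz} g` at a point -/
lemma sum_mE_apply (hG : IsOpen G) (s : Finset ℝ) (c : ℝ → ℂ) (g : JetSp G) (ζ : closure G)
    (j : ℕ) : evL j ζ (∑ t ∈ s, c t • mE hG t g) =
      (j.factorial : ℂ) * ∑ i ∈ Finset.range (j + 1),
        ((∑ t ∈ s, c t * Complex.exp ((t : ℂ) * (ζ : ℂ)) * (t : ℂ) ^ i) / (i.factorial : ℂ)) *
          (evL (j - i) ζ g / ((j - i).factorial : ℂ)) := by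
  rw [map_sum]
  simp_rw [map_smul, smul_eq_mul, evL_mE, Finset.mul_sum]
  rw [Finset.sum_comm]
  apply Finset.sum_congr rfl
  intro i hi
  have hij : i ≤ j := Nat.lt_succ_iff.1 (Finset.mem_range.1 hi)
  rw [Nat.cast_choose ℂ hij, Finset.sum_div, Finset.sum_mul, Finset.mul_sum]
  apply Finset.sum_congr rfl
  intro t _
  have hf1 : (i.factorial : ℂ) ≠ 0 := by exact_mod_cast Nat.factorial_ne_zero i
  have hf2 : ((j - i).factorial : ℂ) ≠ 0 := by exact_mod_cast Nat.factorial_ne_zero (j - i)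
  field_simp

lemma mem_of_sum_mkQ {F : Type} [AddCommGroup F] [Module ℂ F] (Y : Submodule ℂ F) (s : Finset ℝ)
    (c : ℝ → ℂ) (v : ℝ → F) (h : ∑ t ∈ s, c t • Y.mkQ (v t) = 0) : ∑ t ∈ s, c t • v t ∈ Y := by
  have h1 : Y.mkQ (∑ t ∈ s, c t • v t) = 0 := by
    rw [map_sum]
    simp_rw [map_smul]
    exact h
  exact (Submodule.Quotient.mk_eq_zero Y).1 h1

theorem linInd_Yc (hG : IsOpen G) (ζ : closure G) (g : JetSp G) (hg : g ∉ Yc ζ) :
    LinearIndependent ℂ (fun t : ℝ => (Yc ζ).mkQ (mE hG t g)) := by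
  classical
  rw [linearIndependent_iff']
  intro s c hsum
  have hmem : (∑ t ∈ s, c t • mE hG t g) ∈ Yc ζ := by
    exact mem_of_sum_mkQ _ s c _ hsum
  obtain ⟨S, hS⟩ := hmem
  set b : ℕ → ℂ := fun i =>
    (∑ t ∈ s, c t * Complex.exp ((t : ℂ) * (ζ : ℂ)) * (t : ℂ) ^ i) / (i.factorial : ℂ) with hb
  set a : ℕ → ℂ := fun k => evL k ζ g / (k.factorial : ℂ) with ha
  have hfac : ∀ j : ℕ, (0 : ℝ) < (j.factorial : ℝ) := fun j => by
    exact_mod_cast Nat.factorial_pos j
  have hconv : ∀ j, ‖∑ i ∈ Finset.range (j + 1), b i * a (j - i)‖ ≤ (S : ℝ) ^ (j + 1) := by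
    intro j
    have h1 := hS j
    rw [sum_mE_apply, norm_mul, Complex.norm_natCast, mul_comm ((S : ℝ) ^ (j + 1))] at h1
    exact le_of_mul_le_mul_left h1 (hfac j)
  by_cases hzero : ∀ i, b i = 0
  · have h1 : ∀ i : ℕ, ∑ t ∈ s, (c t * Complex.exp ((t : ℂ) * (ζ : ℂ))) * (t : ℂ) ^ i = 0 := by
      intro i
      have h2 := hzero i
      simp only [hb] at h2
      rcases div_eq_zero_iff.1 h2 with h3 | h3
      · exact h3
      · exact absurd h3 (by exact_mod_cast Nat.factorial_ne_zero i)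
    have h2 := coeff_zero_of_moments s (fun t => c t * Complex.exp ((t : ℂ) * (ζ : ℂ))) h1
    intro t ht
    rcases mul_eq_zero.1 (h2 t ht) with h3 | h3
    · exact h3
    · exact absurd h3 (Complex.exp_ne_zero _)
  · exfalso
    push Not at hzero
    have hm := Nat.find_spec hzero
    have hlt : ∀ i < Nat.find hzero, b i = 0 := fun i hi => by
      have := Nat.find_min hzero hi
      rwa [not_not] at this
    -- geometric bound for b
    have hB : ∃ B : ℝ, ∀ i, ‖b i‖ ≤ B ^ (i + 1) := by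
      set K : ℝ := ∑ t ∈ s, ‖c t * Complex.exp ((t : ℂ) * (ζ : ℂ))‖ with hK
      set T : ℝ := ∑ t ∈ s, |t| with hT
      have hK0 : 0 ≤ K := Finset.sum_nonneg fun _ _ => norm_nonneg _
      have hT0 : 0 ≤ T := Finset.sum_nonneg fun _ _ => abs_nonneg _
      refine ⟨K + T + 1, fun i => ?_⟩
      have h1 : ‖b i‖ ≤ K * T ^ i := by
        simp only [hb]
        rw [norm_div, Complex.norm_natCast]
        have h2 : ‖∑ t ∈ s, c t * Complex.exp ((t : ℂ) * (ζ : ℂ)) * (t : ℂ) ^ i‖ ≤ K * T ^ i := by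
          refine (norm_sum_le _ _).trans ?_
          rw [hK, Finset.sum_mul]
          apply Finset.sum_le_sum
          intro t ht
          rw [norm_mul _ ((t : ℂ) ^ i), norm_pow, Complex.norm_real, Real.norm_eq_abs]
          apply mul_le_mul_of_nonneg_left _ (norm_nonneg _)
          apply pow_le_pow_left₀ (abs_nonneg _)
          exact Finset.single_le_sum (f := fun t : ℝ => |t|) (fun _ _ => abs_nonneg _) ht
        have h3 : (1 : ℝ) ≤ (i.factorial : ℝ) := by exact_mod_cast Nat.factorial_pos i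
        refine (div_le_self (norm_nonneg _) h3).trans h2
      refine h1.trans ?_
      rw [pow_succ']
      apply mul_le_mul (by linarith) _ (by positivity) (by positivity)
      exact pow_le_pow_left₀ hT0 (by linarith) i
    obtain ⟨B, hB⟩ := hB
    obtain ⟨S', hS'⟩ := growth hm hlt hB hconv
    apply hg
    refine ⟨S', fun j => ?_⟩
    have h1 := hS' j
    simp only [ha] at h1
    rw [norm_div, Complex.norm_natCast, div_le_iff₀ (hfac j)] at h1
    exact h1

theorem linInd_bot (hG : IsOpen G) (g : JetSp G) (hg : g ∉ (⊥ : Submodule ℂ (JetSp G))) :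
    LinearIndependent ℂ (fun t : ℝ => (⊥ : Submodule ℂ (JetSp G)).mkQ (mE hG t g)) := by
  classical
  rw [linearIndependent_iff']
  intro s c hsum
  have hmem : (∑ t ∈ s, c t • mE hG t g) ∈ (⊥ : Submodule ℂ (JetSp G)) := by
    exact mem_of_sum_mkQ _ s c _ hsum
  rw [Submodule.mem_bot] at hmem hg
  -- a point where g does not vanish
  have hpt : ∃ z : ℂ, ∃ hz : z ∈ G, evL 0 ⟨z, subset_closure hz⟩ g ≠ 0 := by
    by_contra hcon
    push Not at hcon
    apply hg
    apply jet_eq_of_ev hG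
    intro z hz
    rw [hcon z hz, map_zero]
  obtain ⟨z, hz, hgz⟩ := hpt
  set ζ : closure G := ⟨z, subset_closure hz⟩ with hζ
  set b : ℕ → ℂ := fun i =>
    (∑ t ∈ s, c t * Complex.exp ((t : ℂ) * (ζ : ℂ)) * (t : ℂ) ^ i) / (i.factorial : ℂ) with hb
  set a : ℕ → ℂ := fun k => evL k ζ g / (k.factorial : ℂ) with ha
  have hconv : ∀ j, ∑ i ∈ Finset.range (j + 1), b i * a (j - i) = 0 := by
    intro j
    have h1 := sum_mE_apply hG s c g ζ j
    rw [hmem, map_zero] at h1
    rcases mul_eq_zero.1 h1.symm with h3 | h3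
    · exact absurd h3 (by exact_mod_cast Nat.factorial_ne_zero j)
    · exact h3
  have ha0 : a 0 ≠ 0 := by simpa [ha] using hgz
  have hzero : ∀ i, b i = 0 := by
    intro i
    induction i using Nat.strong_induction_on with
    | _ i ih =>
      have h1 := hconv i
      rw [Finset.sum_range_succ] at h1
      have h2 : ∑ x ∈ Finset.range i, b x * a (i - x) = 0 := by
        apply Finset.sum_eq_zero
        intro x hx
        rw [ih x (Finset.mem_range.1 hx), zero_mul]
      rw [h2, zero_add, Nat.sub_self] at h1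
      rcases mul_eq_zero.1 h1 with h3 | h3
      · exact h3
      · exact absurd h3 ha0
  have h1 : ∀ i : ℕ, ∑ t ∈ s, (c t * Complex.exp ((t : ℂ) * (ζ : ℂ))) * (t : ℂ) ^ i = 0 := by
    intro i
    have h2 := hzero i
    simp only [hb] at h2
    rcases div_eq_zero_iff.1 h2 with h3 | h3
    · exact h3
    · exact absurd h3 (by exact_mod_cast Nat.factorial_ne_zero i)
  have h2 := coeff_zero_of_moments s (fun t => c t * Complex.exp ((t : ℂ) * (ζ : ℂ))) h1
  intro t ht
  rcases mul_eq_zero.1 (h2 t ht) with h3 | h3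
  · exact h3
  · exact absurd h3 (Complex.exp_ne_zero _)

/-- The dense Baire subspace of jets all of whose non-zero elements have a divergent Taylor
series at every point of a given countable set of limits of exterior points. -/
theorem exists_jets_subspace (hG : IsOpen G) (hne : G.Nonempty) (Z : Set ℂ) (hZ : Z.Countable)
    (hZG : Z ⊆ closure G) (hZe : ∀ ζ ∈ Z, ∀ ε : ℝ, 0 < ε → ∃ b, b ∉ closure G ∧ ‖ζ - b‖ < ε) :
    ∃ E : Submodule ℂ (JetSp G), Dense (E : Set (JetSp G)) ∧
      (∀ e ∈ E, e ≠ 0 → ∀ (ζ : ℂ) (hζ : ζ ∈ Z), e ∉ Yc ⟨ζ, hZG hζ⟩) ∧ BaireSpace E := by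
  have hBaire := baire_JetSp hG
  have : Countable Z := hZ.to_subtype
  set Y : Option Z → Submodule ℂ (JetSp G) := fun o => match o with
    | none => ⊥
    | some ζ => Yc ⟨ζ.1, hZG ζ.2⟩ with hY
  obtain ⟨E, hE1, hE2, hE3⟩ := exists_baire_subspace (mE hG) (continuous_mE hG) (continuous_mE' hG)
    (mE_zero hG) (mE_add hG) Y (by
      intro o
      match o with
      | none => exact isMeagre_bot hG hne
      | some ζ => exact isMeagre_Yc hG _ (hZe ζ.1 ζ.2)) (by
      intro o g hg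
      match o with
      | none => exact linInd_bot hG g hg
      | some ζ => exact linInd_Yc hG _ g hg)
  refine ⟨E, hE1, fun e he hne0 ζ hζ hmem => hne0 (hE2 (some ⟨ζ, hζ⟩) e he hmem), hE3⟩

end Pool.Agent.H586R3
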