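import Mathlib
import Pool.Agent.Split938.Basic
import Pool.Agent.Helper366.IV.CP

set_option autoImplicit false

open MeasureTheory Metric Set Filter Topology Complex
open scoped ContDiff ENNReal

namespace Pool.Agent.H586R3.CT

open Pool.Agent.Split938 (dbar)

/-- the Cauchy transform of a measure -/
noncomputable def CT (μ : Measure ℂ) (z : ℂ) : ℂ := ∫ ζ, (z - ζ)⁻¹ ∂μ

theorem lintegral_inv_ball_lt_top (r : ℝ) : ∫⁻ w in ball (0 : ℂ) r, ‖w⁻¹‖ₑ < ⊤ := by
  have h : IntegrableOn (fun w : ℂ => (‖w‖)⁻¹) (ball 0 r) := by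
    rw [integrableOn_fun_norm_addHaar (volume : Measure ℂ) (f := fun y : ℝ => y⁻¹) (r := r)]
    rw [Complex.finrank_real_complex]
    have h1 : IntegrableOn (fun _ : ℝ => (1 : ℝ)) (Ioo 0 r) :=
      integrableOn_const measure_Ioo_lt_top.ne (by simp)
    refine h1.congr_fun ?_ measurableSet_Ioo
    intro y hy
    have hy0 : y ≠ 0 := hy.1.ne'
    simp [hy0]
  have h2 := h.2
  rw [hasFiniteIntegral_iff_enorm] at h2
  refine lt_of_le_of_lt (le_of_eq ?_) h2
  apply lintegral_congr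
  intro w
  rw [← enorm_norm (w⁻¹), norm_inv]

theorem lintegral_inv_le (w : ℂ) (r : ℝ) (ζ : ℂ) :
    ∫⁻ z in ball w r, ‖(z - ζ)⁻¹‖ₑ ≤ (∫⁻ z in ball (0 : ℂ) 1, ‖z⁻¹‖ₑ) + volume (ball w r) := by
  have h1 : ∫⁻ z in ball w r, ‖(z - ζ)⁻¹‖ₑ ≤
      ∫⁻ z in ball w r, ((ball (0 : ℂ) 1).indicator (fun v => ‖v⁻¹‖ₑ) (z - ζ) + 1) := by
    apply lintegral_mono
    intro z
    show ‖(z - ζ)⁻¹‖ₑ ≤ (ball (0 : ℂ) 1).indicator (fun v => ‖v⁻¹‖ₑ) (z - ζ) + 1
    by_cases hz : z - ζ ∈ ball (0 : ℂ) 1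
    · rw [indicator_of_mem hz]
      exact le_self_add
    · rw [indicator_of_notMem hz, zero_add]
      rw [mem_ball_zero_iff, not_lt] at hz
      rw [← enorm_norm, norm_inv]
      have : ‖z - ζ‖⁻¹ ≤ 1 := inv_le_one_of_one_le₀ hz
      rw [Real.enorm_eq_ofReal (by positivity)]
      exact ENNReal.ofReal_le_one.2 this
  refine h1.trans ?_
  rw [lintegral_add_right _ measurable_const]
  apply add_le_add
  · calc ∫⁻ z in ball w r, (ball (0 : ℂ) 1).indicator (fun v => ‖v⁻¹‖ₑ) (z - ζ)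
        ≤ ∫⁻ z, (ball (0 : ℂ) 1).indicator (fun v => ‖v⁻¹‖ₑ) (z - ζ) := setLIntegral_le_lintegral _ _
      _ = ∫⁻ z, (ball (0 : ℂ) 1).indicator (fun v => ‖v⁻¹‖ₑ) z :=
          lintegral_sub_right_eq_self _ ζ
      _ = _ := lintegral_indicator measurableSet_ball _
  · rw [setLIntegral_const, one_mul]

theorem measurable_ker : Measurable (fun p : ℂ × ℂ => (p.1 - p.2)⁻¹) := by fun_prop

theorem integrable_ker (μ : Measure ℂ) [IsFiniteMeasure μ] (w : ℂ) (r : ℝ) :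
    Integrable (fun p : ℂ × ℂ => (p.1 - p.2)⁻¹) ((volume.restrict (ball w r)).prod μ) := by
  refine ⟨measurable_ker.aestronglyMeasurable, ?_⟩
  rw [hasFiniteIntegral_iff_enorm]
  rw [lintegral_prod_symm' _ (by fun_prop)]
  have h1 : ∫⁻ ζ, ∫⁻ z in ball w r, ‖(z - ζ)⁻¹‖ₑ ∂volume ∂μ ≤
      ∫⁻ _, ((∫⁻ z in ball (0 : ℂ) 1, ‖z⁻¹‖ₑ) + volume (ball w r)) ∂μ :=
    lintegral_mono fun ζ => lintegral_inv_le w r ζ
  refine h1.trans_lt ?_
  rw [lintegral_const]
  exact ENNReal.mul_lt_top (ENNReal.add_lt_top.2 ⟨lintegral_inv_ball_lt_top 1, measure_ball_lt_top⟩)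
    (measure_lt_top μ _)

theorem ae_integrable (μ : Measure ℂ) [IsFiniteMeasure μ] :
    ∀ᵐ z : ℂ, Integrable (fun ζ => (z - ζ)⁻¹) μ := by
  have h1 : ∀ n : ℕ, ∀ᵐ z ∂(volume.restrict (ball (0 : ℂ) n)), Integrable (fun ζ => (z - ζ)⁻¹) μ :=
    fun n => (integrable_ker μ 0 n).prod_right_ae
  have h2 : ∀ᵐ z : ℂ, ∀ n : ℕ, z ∈ ball (0 : ℂ) n → Integrable (fun ζ => (z - ζ)⁻¹) μ := by
    rw [ae_all_iff]
    intro n
    exact (ae_restrict_iff' measurableSet_ball).1 (h1 n)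
  filter_upwards [h2] with z hz
  obtain ⟨n, hn⟩ := exists_nat_gt ‖z‖
  exact hz n (by simpa using hn)

theorem integrableOn_CT (μ : Measure ℂ) [IsFiniteMeasure μ] (w : ℂ) (r : ℝ) :
    IntegrableOn (CT μ) (ball w r) := (integrable_ker μ w r).integral_prod_left

theorem locallyIntegrable_CT (μ : Measure ℂ) [IsFiniteMeasure μ] :
    LocallyIntegrable (CT μ) volume := by
  intro z
  exact ⟨ball z 1, ball_mem_nhds z one_pos, integrableOn_CT μ z 1⟩

/-- the weak d-bar equation for the Cauchy transform -/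
theorem weak_CT (μ : Measure ℂ) [IsFiniteMeasure μ] {ψ : ℂ → ℂ} (hψ : ContDiff ℝ 1 ψ)
    (hc : HasCompactSupport ψ) (z : ℂ) :
    ∫ w, CT μ w * dbar ψ (z - w) = Real.pi * ∫ ζ, ψ (z - ζ) ∂μ := by
  have hdc : Continuous (dbar ψ) := Pool.Agent.Split938.dbar_continuous hψ
  have hds : HasCompactSupport (dbar ψ) := Pool.Agent.Split938.dbar_hcs hc
  obtain ⟨M, hM⟩ := hds.exists_bound_of_continuous hdc
  obtain ⟨R, hR⟩ := (hds.isCompact.isBounded).subset_closedBall (0 : ℂ)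
  -- integrability on the product
  have hint : Integrable (fun p : ℂ × ℂ => (p.1 - p.2)⁻¹ * dbar ψ (z - p.1)) (volume.prod μ) := by
    have h1 := (integrable_ker μ z (R + 1)).bdd_mul (c := M) (f := fun p : ℂ × ℂ => dbar ψ (z - p.1))
      (by
        apply Continuous.aestronglyMeasurable
        exact hdc.comp (by fun_prop)) (Eventually.of_forall fun p => hM _)
    have h2 : Integrable (((ball z (R + 1)) ×ˢ univ).indicator
        (fun p : ℂ × ℂ => (dbar ψ (z - p.1)) * (p.1 - p.2)⁻¹)) (volume.prod μ) := by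
      rw [integrable_indicator_iff (measurableSet_ball.prod MeasurableSet.univ), IntegrableOn,
        ← Measure.prod_restrict, Measure.restrict_univ]
      exact h1
    refine h2.congr (Eventually.of_forall fun p => ?_)
    by_cases hp : p ∈ (ball z (R + 1)) ×ˢ (univ : Set ℂ)
    · rw [indicator_of_mem hp, mul_comm]
    · rw [indicator_of_notMem hp]
      have hp1 : p.1 ∉ ball z (R + 1) := fun h => hp ⟨h, mem_univ _⟩
      have : z - p.1 ∉ tsupport (dbar ψ) := by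
        intro hmem
        have h3 := hR hmem
        rw [mem_closedBall_zero_iff] at h3
        apply hp1
        rw [mem_ball, dist_comm, dist_eq_norm]
        linarith
      show (0 : ℂ) = (p.1 - p.2)⁻¹ * dbar ψ (z - p.1)
      rw [image_eq_zero_of_notMem_tsupport this, mul_zero]
  calc ∫ w, CT μ w * dbar ψ (z - w) = ∫ w, ∫ ζ, (w - ζ)⁻¹ * dbar ψ (z - w) ∂μ := by
        congr 1
        funext w
        rw [CT, integral_mul_const]
    _ = ∫ ζ, ∫ w, (w - ζ)⁻¹ * dbar ψ (z - w) ∂volume ∂μ := integral_integral_swap hint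
    _ = ∫ ζ, Real.pi * ψ (z - ζ) ∂μ := by
        congr 1
        funext ζ
        rw [← Pool.Agent.Helper366.IV.cauchy_pompeiu ψ hψ hc (z - ζ)]
        rw [← integral_add_right_eq_self _ ζ]
        congr 1
        funext w
        show (w + ζ - ζ)⁻¹ * dbar ψ (z - (w + ζ)) = _
        have e1 : z - (w + ζ) = z - ζ - w := by ring
        rw [add_sub_cancel_right, e1, Pool.Agent.Split938.dbar, div_eq_mul_inv _ w, mul_comm]
    _ = Real.pi * ∫ ζ, ψ (z - ζ) ∂μ := integral_const_mul _ _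

end Pool.Agent.H586R3.CT
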