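import Mathlib
import Pool.Agent.H586R3.CT1

set_option autoImplicit false

open MeasureTheory Metric Set Filter Topology Complex
open scoped ContDiff ENNReal

namespace Pool.Agent.H586R3.CT

open Pool.Agent.Split938 (dbar dbar_continuous dbar_hcs dbar_tsupport)

/-- a fixed sequence of bump functions -/
noncomputable def bmp (n : ℕ) : ContDiffBump (0 : ℂ) where
  rIn := 1 / (2 * ((n : ℝ) + 1))
  rOut := 1 / ((n : ℝ) + 1)
  rIn_pos := by positivity
  rIn_lt_rOut := by
    have : (0 : ℝ) < (n : ℝ) + 1 := by positivity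
    apply one_div_lt_one_div_of_lt this
    linarith

/-- radius -/
noncomputable def ep (n : ℕ) : ℝ := 1 / ((n : ℝ) + 1)

lemma ep_pos (n : ℕ) : 0 < ep n := by unfold ep; positivity

lemma tendsto_ep : Tendsto ep atTop (𝓝 0) := tendsto_one_div_add_atTop_nhds_zero_nat

/-- real mollifier -/
noncomputable def ψR (n : ℕ) (t : ℂ) : ℝ := (bmp n).normed volume t

/-- complex mollifier -/
noncomputable def ψC (n : ℕ) (t : ℂ) : ℂ := (ψR n t : ℂ)

lemma ψR_nonneg (n : ℕ) (t : ℂ) : 0 ≤ ψR n t := (bmp n).nonneg_normed t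

lemma ψR_contDiff (n : ℕ) : ContDiff ℝ 1 (ψR n) := (bmp n).contDiff_normed

lemma ψC_contDiff (n : ℕ) : ContDiff ℝ 1 (ψC n) := Complex.ofRealCLM.contDiff.comp (ψR_contDiff n)

lemma ψR_continuous (n : ℕ) : Continuous (ψR n) := (ψR_contDiff n).continuous

lemma ψR_tsupport (n : ℕ) : tsupport (ψR n) = closedBall 0 (ep n) := (bmp n).tsupport_normed_eq

lemma ψR_hcs (n : ℕ) : HasCompactSupport (ψR n) := (bmp n).hasCompactSupport_normed

lemma ψC_tsupport_subset (n : ℕ) : tsupport (ψC n) ⊆ closedBall 0 (ep n) := by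
  rw [← ψR_tsupport]
  apply closure_mono
  intro t ht
  rw [Function.mem_support] at ht ⊢
  intro h
  apply ht
  rw [ψC, h, Complex.ofReal_zero]

lemma ψC_hcs (n : ℕ) : HasCompactSupport (ψC n) :=
  IsCompact.of_isClosed_subset (isCompact_closedBall 0 (ep n)) (isClosed_tsupport _)
    (ψC_tsupport_subset n)

lemma ψR_zero_of_lt (n : ℕ) {t : ℂ} (h : ep n < ‖t‖) : ψR n t = 0 := by
  apply image_eq_zero_of_notMem_tsupport
  rw [ψR_tsupport]
  simpa using h

lemma integral_ψR (n : ℕ) : ∫ t, ψR n t = 1 := (bmp n).integral_normed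

lemma integrable_ψR (n : ℕ) : Integrable (ψR n) := (bmp n).integrable_normed

lemma integral_ψR_sub (n : ℕ) (z : ℂ) : ∫ w, ψR n (z - w) = 1 := by
  rw [integral_sub_left_eq_self (ψR n) volume z, integral_ψR]

/-- mollification -/
noncomputable def mo (n : ℕ) (g : ℂ → ℂ) (z : ℂ) : ℂ := ∫ w, g w * ψC n (z - w)

/-- mollification of the measure -/
noncomputable def mm (n : ℕ) (μ : Measure ℂ) (z : ℂ) : ℝ := ∫ ζ, ψR n (z - ζ) ∂μ

lemma mm_nonneg (n : ℕ) (μ : Measure ℂ) (z : ℂ) : 0 ≤ mm n μ z :=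
  integral_nonneg fun _ => ψR_nonneg _ _

lemma mo_eq_conv (n : ℕ) (g : ℂ → ℂ) :
    mo n g = convolution g (ψC n) (ContinuousLinearMap.mul ℝ ℂ) volume := by
  funext z
  rw [convolution_def]
  rfl

lemma mo_contDiff (n : ℕ) {g : ℂ → ℂ} (hg : LocallyIntegrable g volume) :
    ContDiff ℝ 1 (mo n g) := by
  rw [mo_eq_conv]
  exact (ψC_hcs n).contDiff_convolution_right _ hg (ψC_contDiff n)

lemma mo_fderiv (n : ℕ) {g : ℂ → ℂ} (hg : LocallyIntegrable g volume) (z v : ℂ) :
    fderiv ℝ (mo n g) z v = ∫ w, g w * fderiv ℝ (ψC n) (z - w) v := by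
  have h1 := (ψC_hcs n).hasFDerivAt_convolution_right (ContinuousLinearMap.mul ℝ ℂ) hg
    (ψC_contDiff n) z
  rw [mo_eq_conv, h1.fderiv, convolution_precompR_apply _ hg ((ψC_hcs n).fderiv ℝ)
    ((ψC_contDiff n).continuous_fderiv (by norm_num)), convolution_def]
  rfl

lemma integrable_mul_fderiv (n : ℕ) {g : ℂ → ℂ} (hg : LocallyIntegrable g volume) (z v : ℂ) :
    Integrable (fun w => g w * fderiv ℝ (ψC n) (z - w) v) := by
  have hc : Continuous fun w => fderiv ℝ (ψC n) w v :=
    ((ψC_contDiff n).continuous_fderiv (by norm_num)).clm_apply continuous_const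
  have hs : HasCompactSupport fun w => fderiv ℝ (ψC n) w v := by
    have := (ψC_hcs n).fderiv ℝ
    exact this.comp_left (g := fun L : ℂ →L[ℝ] ℂ => L v) (by simp)
  exact (hs.convolutionExists_right (ContinuousLinearMap.mul ℝ ℂ) hg hc z)

lemma dbar_mo (n : ℕ) {g : ℂ → ℂ} (hg : LocallyIntegrable g volume) (z : ℂ) :
    dbar (mo n g) z = ∫ w, g w * dbar (ψC n) (z - w) := by
  have h1 : ∀ w, g w * dbar (ψC n) (z - w) =
      (1 / 2 : ℂ) * (g w * fderiv ℝ (ψC n) (z - w) 1) +
        (I / 2) * (g w * fderiv ℝ (ψC n) (z - w) I) := by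
    intro w
    simp only [dbar]
    ring
  simp_rw [h1]
  rw [integral_add ((integrable_mul_fderiv n hg z 1).const_mul _)
    ((integrable_mul_fderiv n hg z I).const_mul _), integral_const_mul, integral_const_mul,
    ← mo_fderiv n hg, ← mo_fderiv n hg]
  simp only [dbar]
  ring

lemma dbar_mo_CT (n : ℕ) (μ : Measure ℂ) [IsFiniteMeasure μ] (z : ℂ) :
    dbar (mo n (CT μ)) z = ((Real.pi * mm n μ z : ℝ) : ℂ) := by
  rw [dbar_mo n (locallyIntegrable_CT μ), weak_CT μ (ψC_contDiff n) (ψC_hcs n)]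
  unfold ψC mm
  rw [integral_complex_ofReal]
  push_cast
  rfl

lemma mo_eq_smul (n : ℕ) (g : ℂ → ℂ) (z : ℂ) : mo n g z = ∫ t, ψR n t • g (z - t) := by
  unfold mo
  rw [← integral_sub_left_eq_self (fun t => ψR n t • g (z - t)) volume z]
  congr 1
  funext w
  rw [sub_sub_cancel, ψC, mul_comm, Complex.real_smul]

lemma ae_tendsto_mo {g : ℂ → ℂ} (hg : LocallyIntegrable g volume) :
    ∀ᵐ z : ℂ, Tendsto (fun n => mo n g z) atTop (𝓝 (g z)) := by
  have h1 := ContDiffBump.ae_convolution_tendsto_right_of_locallyIntegrable (φ := bmp)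
    (l := atTop) (K := 2) (μ := (volume : Measure ℂ)) (g := g) tendsto_ep
    (Eventually.of_forall fun n => by
      show 1 / ((n : ℝ) + 1) ≤ 2 * (1 / (2 * ((n : ℝ) + 1)))
      apply le_of_eq
      have : (n : ℝ) + 1 ≠ 0 := by positivity
      field_simp) hg
  filter_upwards [h1] with z hz
  refine hz.congr fun n => ?_
  rw [convolution_def, mo_eq_smul]
  rfl

lemma norm_mo_le (n : ℕ) {g : ℂ → ℂ} {M : ℝ} (hM : 0 ≤ M) (z : ℂ)
    (hg : ∀ᵐ w : ℂ, w ∈ closedBall z (ep n) → ‖g w‖ ≤ M) : ‖mo n g z‖ ≤ M := by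
  unfold mo
  have h1 : ∀ᵐ w : ℂ, ‖g w * ψC n (z - w)‖ ≤ M * ψR n (z - w) := by
    filter_upwards [hg] with w hw
    rw [norm_mul, ψC, Complex.norm_real, Real.norm_of_nonneg (ψR_nonneg _ _)]
    by_cases hzw : w ∈ closedBall z (ep n)
    · exact mul_le_mul_of_nonneg_right (hw hzw) (ψR_nonneg _ _)
    · have : ψR n (z - w) = 0 := by
        apply ψR_zero_of_lt
        rw [mem_closedBall, not_le, dist_comm, dist_eq_norm] at hzw
        exact hzw
      rw [this, mul_zero, mul_zero]
  calc ‖∫ w, g w * ψC n (z - w)‖ ≤ ∫ w, M * ψR n (z - w) :=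
        norm_integral_le_of_norm_le (((integrable_ψR n).comp_sub_left z).const_mul M) h1
    _ = M := by rw [integral_const_mul, integral_ψR_sub, mul_one]

lemma mm_continuous (n : ℕ) (μ : Measure ℂ) [IsFiniteMeasure μ] : Continuous (mm n μ) := by
  obtain ⟨B, hB⟩ := (ψR_hcs n).exists_bound_of_continuous (ψR_continuous n)
  unfold mm
  apply continuous_of_dominated (bound := fun _ => B)
  · intro z
    exact ((ψR_continuous n).comp (by fun_prop)).aestronglyMeasurable
  · intro z
    exact Eventually.of_forall fun ζ => hB _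
  · exact integrable_const B
  · exact Eventually.of_forall fun ζ => (ψR_continuous n).comp (by fun_prop)

/-- total mass of the mollified measure on a ball -/
lemma lintegral_mm_le (n : ℕ) (μ : Measure ℂ) [IsFiniteMeasure μ] (x : ℂ) (r : ℝ) :
    ∫⁻ z in ball x r, ENNReal.ofReal (mm n μ z) ≤ μ (ball x (r + ep n)) := by
  obtain ⟨B, hB⟩ := (ψR_hcs n).exists_bound_of_continuous (ψR_continuous n)
  have hi : ∀ z, Integrable (fun ζ => ψR n (z - ζ)) μ := fun z =>
    Integrable.of_bound (((ψR_continuous n).comp (by fun_prop)).aestronglyMeasurable) B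
      (Eventually.of_forall fun ζ => hB _)
  have h1 : ∀ z, ENNReal.ofReal (mm n μ z) = ∫⁻ ζ, ENNReal.ofReal (ψR n (z - ζ)) ∂μ := fun z =>
    ofReal_integral_eq_lintegral_ofReal (hi z) (Eventually.of_forall fun ζ => ψR_nonneg _ _)
  simp_rw [h1]
  rw [lintegral_lintegral_swap]
  · have h2 : ∀ ζ, ∫⁻ z in ball x r, ENNReal.ofReal (ψR n (z - ζ)) ≤
        (ball x (r + ep n)).indicator (fun _ => 1) ζ := by
      intro ζ
      by_cases hζ : ζ ∈ ball x (r + ep n)
      · rw [indicator_of_mem hζ]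
        calc ∫⁻ z in ball x r, ENNReal.ofReal (ψR n (z - ζ))
            ≤ ∫⁻ z, ENNReal.ofReal (ψR n (z - ζ)) := setLIntegral_le_lintegral _ _
          _ = ∫⁻ z, ENNReal.ofReal (ψR n z) :=
              lintegral_sub_right_eq_self (fun z => ENNReal.ofReal (ψR n z)) ζ
          _ = ENNReal.ofReal (∫ z, ψR n z) :=
              (ofReal_integral_eq_lintegral_ofReal (integrable_ψR n)
                (Eventually.of_forall fun ζ => ψR_nonneg _ _)).symm
          _ ≤ 1 := by rw [integral_ψR]; simp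
      · rw [indicator_of_notMem hζ]
        apply le_of_eq
        rw [setLIntegral_congr_fun measurableSet_ball (g := fun _ => 0)]
        · simp
        · intro z hz
          show ENNReal.ofReal (ψR n (z - ζ)) = 0
          rw [ψR_zero_of_lt, ENNReal.ofReal_zero]
          by_contra hcon
          rw [not_lt] at hcon
          apply hζ
          rw [mem_ball] at hz ⊢
          calc dist ζ x ≤ dist ζ z + dist z x := dist_triangle _ _ _
            _ < ep n + r := by
                rw [dist_comm ζ z, dist_eq_norm z ζ]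
                linarith
            _ = r + ep n := by ring
    calc ∫⁻ ζ, ∫⁻ z in ball x r, ENNReal.ofReal (ψR n (z - ζ)) ∂volume ∂μ
        ≤ ∫⁻ ζ, (ball x (r + ep n)).indicator (fun _ => 1) ζ ∂μ := lintegral_mono h2
      _ = μ (ball x (r + ep n)) := by
          rw [lintegral_indicator measurableSet_ball]; simp
  · apply Measurable.aemeasurable
    apply ENNReal.measurable_ofReal.comp
    exact ((ψR_continuous n).comp (by fun_prop)).measurable

end Pool.Agent.H586R3.CT
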