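import Mathlib
import Pool.Agent.H586R3.CT2

set_option autoImplicit false

open MeasureTheory Metric Set Filter Topology Complex
open scoped ContDiff ENNReal

namespace Pool.Agent.H586R3.CT

open Pool.Agent.Split938 (dbar dbar_continuous dbar_hcs dbar_tsupport dbar_mul dbar_add
  dbar_of_hasDerivAt dbar_zero_off)

/-- `g` is a bounded a.e. limit of smooth functions whose d-bar derivatives are controlled by the
mollifications of `μ` -/
def Good (μ : Measure ℂ) (D : Set ℂ) (g : ℂ → ℂ) : Prop :=
  ∃ (M : ℝ) (G : ℕ → ℂ → ℂ), 0 ≤ M ∧ (∀ n, ContDiffOn ℝ 1 (G n) D) ∧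
    (∀ᶠ n in atTop, ∀ z ∈ D, ‖G n z‖ ≤ M ∧ ‖dbar (G n) z‖ ≤ M * mm n μ z) ∧
    (∀ᵐ z : ℂ, z ∈ D → Tendsto (fun n => G n z) atTop (𝓝 (g z)))

lemma Good.congr {μ : Measure ℂ} {D : Set ℂ} {g h : ℂ → ℂ} (hg : Good μ D g)
    (hgh : ∀ᵐ z : ℂ, z ∈ D → g z = h z) : Good μ D h := by
  obtain ⟨M, G, h0, h1, h2, h3⟩ := hg
  refine ⟨M, G, h0, h1, h2, ?_⟩
  filter_upwards [h3, hgh] with z hz1 hz2 hz
  rw [← hz2 hz]
  exact hz1 hz

lemma Good.mono {μ : Measure ℂ} {D D' : Set ℂ} {g : ℂ → ℂ} (hg : Good μ D g) (hD : D' ⊆ D) :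
    Good μ D' g := by
  obtain ⟨M, G, h0, h1, h2, h3⟩ := hg
  refine ⟨M, G, h0, fun n => (h1 n).mono hD, ?_, ?_⟩
  · filter_upwards [h2] with n hn z hz using hn z (hD hz)
  · filter_upwards [h3] with z hz hzD using hz (hD hzD)

lemma Good.mul {μ : Measure ℂ} {D : Set ℂ} (hD : IsOpen D) {g h : ℂ → ℂ} (hg : Good μ D g)
    (hh : Good μ D h) : Good μ D (fun z => g z * h z) := by
  obtain ⟨M, G, h0, h1, h2, h3⟩ := hg
  obtain ⟨N, H, k0, k1, k2, k3⟩ := hh
  refine ⟨2 * (M * N), fun n z => G n z * H n z, by positivity, fun n => (h1 n).mul (k1 n), ?_, ?_⟩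
  · filter_upwards [h2, k2] with n hn kn z hz
    obtain ⟨a1, a2⟩ := hn z hz
    obtain ⟨b1, b2⟩ := kn z hz
    have hGd : DifferentiableAt ℝ (G n) z :=
      ((h1 n).contDiffAt (hD.mem_nhds hz)).differentiableAt (by norm_num)
    have hHd : DifferentiableAt ℝ (H n) z :=
      ((k1 n).contDiffAt (hD.mem_nhds hz)).differentiableAt (by norm_num)
    constructor
    · rw [norm_mul]
      have : ‖G n z‖ * ‖H n z‖ ≤ M * N := mul_le_mul a1 b1 (norm_nonneg _) h0
      have : 0 ≤ M * N := by positivity
      linarith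
    · rw [dbar_mul hGd hHd]
      refine (norm_add_le _ _).trans ?_
      rw [norm_mul, norm_mul]
      have hm := mm_nonneg n μ z
      have e1 : ‖G n z‖ * ‖dbar (H n) z‖ ≤ M * (N * mm n μ z) :=
        mul_le_mul a1 b2 (norm_nonneg _) h0
      have e2 : ‖dbar (G n) z‖ * ‖H n z‖ ≤ (M * mm n μ z) * N :=
        mul_le_mul a2 b1 (norm_nonneg _) (by positivity)
      calc ‖G n z‖ * ‖dbar (H n) z‖ + ‖dbar (G n) z‖ * ‖H n z‖
          ≤ M * (N * mm n μ z) + (M * mm n μ z) * N := add_le_add e1 e2
        _ = 2 * (M * N) * mm n μ z := by ring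
  · filter_upwards [h3, k3] with z hz kz hzD
    exact (hz hzD).mul (kz hzD)

lemma Good.add {μ : Measure ℂ} {D : Set ℂ} (hD : IsOpen D) {g h : ℂ → ℂ} (hg : Good μ D g)
    (hh : Good μ D h) : Good μ D (fun z => g z + h z) := by
  obtain ⟨M, G, h0, h1, h2, h3⟩ := hg
  obtain ⟨N, H, k0, k1, k2, k3⟩ := hh
  refine ⟨M + N, fun n z => G n z + H n z, by positivity, fun n => (h1 n).add (k1 n), ?_, ?_⟩
  · filter_upwards [h2, k2] with n hn kn z hz
    obtain ⟨a1, a2⟩ := hn z hz
    obtain ⟨b1, b2⟩ := kn z hz
    have hGd : DifferentiableAt ℝ (G n) z :=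
      ((h1 n).contDiffAt (hD.mem_nhds hz)).differentiableAt (by norm_num)
    have hHd : DifferentiableAt ℝ (H n) z :=
      ((k1 n).contDiffAt (hD.mem_nhds hz)).differentiableAt (by norm_num)
    constructor
    · exact (norm_add_le _ _).trans (add_le_add a1 b1)
    · rw [dbar_add hGd hHd]
      refine (norm_add_le _ _).trans ?_
      have := add_le_add a2 b2
      linarith
  · filter_upwards [h3, k3] with z hz kz hzD
    exact (hz hzD).add (kz hzD)

lemma good_of_holomorphic {μ : Measure ℂ} {D : Set ℂ} (hD : IsOpen D) {A : ℂ → ℂ}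
    (hA : DifferentiableOn ℂ A D) {M : ℝ} (hM0 : 0 ≤ M) (hM : ∀ z ∈ D, ‖A z‖ ≤ M) :
    Good μ D A := by
  refine ⟨M, fun _ => A, hM0, fun _ => ?_, Eventually.of_forall fun n z hz => ⟨hM z hz, ?_⟩,
    Eventually.of_forall fun z _ => tendsto_const_nhds⟩
  · exact (hA.contDiffOn hD).restrict_scalars ℝ
  · have h1 := (hA.differentiableAt (hD.mem_nhds hz)).hasDerivAt
    rw [dbar_of_hasDerivAt h1, norm_zero]
    exact mul_nonneg hM0 (mm_nonneg n μ z)

lemma Good.prod {μ : Measure ℂ} {D : Set ℂ} (hD : IsOpen D) {ι : Type*} (s : Finset ι)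
    {g : ι → ℂ → ℂ} (hg : ∀ i ∈ s, Good μ D (g i)) : Good μ D (fun z => ∏ i ∈ s, g i z) := by
  classical
  induction s using Finset.induction_on with
  | empty =>
    simp only [Finset.prod_empty]
    exact good_of_holomorphic hD (differentiableOn_const 1) (M := 1) zero_le_one
      (fun z _ => by simp)
  | insert a s ha ih =>
    simp only [Finset.prod_insert ha]
    exact (hg a (Finset.mem_insert_self a s)).mul hD
      (ih fun i hi => hg i (Finset.mem_insert_of_mem hi))

/-- the Cauchy transform is good where it is essentially bounded -/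
lemma good_CT (μ : Measure ℂ) [IsFiniteMeasure μ] {x₀ : ℂ} {R R' : ℝ} (hR : R < R') {M : ℝ}
    (hM0 : 0 ≤ M) (hM : ∀ᵐ z : ℂ, z ∈ ball x₀ R' → ‖CT μ z‖ ≤ M) :
    Good μ (ball x₀ R) (CT μ) := by
  refine ⟨M + Real.pi, fun n => mo n (CT μ), by positivity,
    fun n => (mo_contDiff n (locallyIntegrable_CT μ)).contDiffOn, ?_, ?_⟩
  · have h1 : ∀ᶠ n in atTop, ep n < R' - R := tendsto_ep.eventually (gt_mem_nhds (by linarith))
    filter_upwards [h1] with n hn z hz
    constructor
    · refine (norm_mo_le n hM0 z ?_).trans (by linarith [Real.pi_pos])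
      filter_upwards [hM] with w hw hwz
      apply hw
      rw [mem_ball] at hz ⊢
      rw [mem_closedBall] at hwz
      calc dist w x₀ ≤ dist w z + dist z x₀ := dist_triangle _ _ _
        _ < R' := by linarith
    · rw [dbar_mo_CT, Complex.norm_real, Real.norm_of_nonneg
        (mul_nonneg Real.pi_pos.le (mm_nonneg n μ z))]
      exact mul_le_mul_of_nonneg_right (by linarith) (mm_nonneg n μ z)
  · filter_upwards [ae_tendsto_mo (locallyIntegrable_CT μ)] with z hz _ using hz

/-- product of a compactly supported continuous function and a function continuous near the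
support -/
lemma continuous_mul_of_tsupport {f G : ℂ → ℂ} {D : Set ℂ} (hD : IsOpen D) (hf : Continuous f)
    (hs : tsupport f ⊆ D) (hG : ContinuousOn G D) : Continuous (fun z => f z * G z) := by
  rw [continuous_iff_continuousAt]
  intro z
  by_cases hz : z ∈ D
  · exact hf.continuousAt.mul (hG.continuousAt (hD.mem_nhds hz))
  · have hz' : z ∉ tsupport f := fun h => hz (hs h)
    have h1 : f =ᶠ[𝓝 z] fun _ => 0 := notMem_tsupport_iff_eventuallyEq.1 hz'
    have h2 : (fun z => f z * G z) =ᶠ[𝓝 z] fun _ => 0 := by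
      filter_upwards [h1] with w hw
      rw [hw, zero_mul]
    exact (continuousAt_const).congr h2.symm

/-- integration by parts for d-bar -/
lemma integral_dbar_parts {f G : ℂ → ℂ} {D : Set ℂ} (hD : IsOpen D) (hf : ContDiff ℝ 1 f)
    (hc : HasCompactSupport f) (hs : tsupport f ⊆ D) (hG : ContDiffOn ℝ 1 G D) :
    ∫ z, f z * dbar G z = - ∫ z, dbar f z * G z := by
  have hGd : ∀ z ∈ D, DifferentiableAt ℝ G z := fun z hz =>
    (hG.contDiffAt (hD.mem_nhds hz)).differentiableAt (by norm_num)
  have hfd : ∀ z, DifferentiableAt ℝ f z := fun z => hf.differentiable (by norm_num) z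
  have hfv : ∀ v : ℂ, Continuous (fun z => fderiv ℝ f z v) := fun v =>
    (hf.continuous_fderiv (by norm_num)).clm_apply continuous_const
  have hfvs : ∀ v : ℂ, tsupport (fun z => fderiv ℝ f z v) ⊆ tsupport f := by
    intro v
    apply closure_minimal _ (isClosed_tsupport f)
    intro z hz
    by_contra h
    apply hz
    have h1 : f =ᶠ[𝓝 z] fun _ => 0 := notMem_tsupport_iff_eventuallyEq.1 h
    show fderiv ℝ f z v = 0
    rw [h1.fderiv_eq]; simp
  have hGc : ContinuousOn G D := hG.continuousOn
  have hGv : ∀ v : ℂ, ContinuousOn (fun z => fderiv ℝ G z v) D := fun v =>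
    (hG.continuousOn_fderiv_of_isOpen hD (by norm_num)).clm_apply continuousOn_const
  have key : ∀ v : ℂ, ∫ z, f z * fderiv ℝ G z v = - ∫ z, fderiv ℝ f z v * G z := by
    intro v
    apply integral_mul_fderiv_eq_neg_fderiv_mul_of_integrable
    · have h1 := continuous_mul_of_tsupport hD (hfv v) ((hfvs v).trans hs) hGc
      apply h1.integrable_of_hasCompactSupport
      apply HasCompactSupport.mul_right
      exact IsCompact.of_isClosed_subset hc (isClosed_tsupport _) (hfvs v)
    · have h1 := continuous_mul_of_tsupport hD hf.continuous hs (hGv v)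
      exact h1.integrable_of_hasCompactSupport hc.mul_right
    · have h1 := continuous_mul_of_tsupport hD hf.continuous hs hGc
      exact h1.integrable_of_hasCompactSupport hc.mul_right
    · exact fun z _ => hfd z
    · exact fun z hz => hGd z (hs hz)
  have i1 : ∀ v : ℂ, Integrable (fun z => f z * fderiv ℝ G z v) := fun v =>
    (continuous_mul_of_tsupport hD hf.continuous hs (hGv v)).integrable_of_hasCompactSupport
      hc.mul_right
  have i2 : ∀ v : ℂ, Integrable (fun z => fderiv ℝ f z v * G z) := fun v => by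
    have hcv : HasCompactSupport (fun z => fderiv ℝ f z v) :=
      IsCompact.of_isClosed_subset hc (isClosed_tsupport _) (hfvs v)
    exact (continuous_mul_of_tsupport hD (hfv v) ((hfvs v).trans hs)
      hGc).integrable_of_hasCompactSupport (HasCompactSupport.mul_right hcv)
  have e1 : ∀ z, f z * dbar G z = (1 / 2 : ℂ) * (f z * fderiv ℝ G z 1) +
      (I / 2) * (f z * fderiv ℝ G z I) := by
    intro z; simp only [dbar]; ring
  have e2 : ∀ z, dbar f z * G z = (1 / 2 : ℂ) * (fderiv ℝ f z 1 * G z) +
      (I / 2) * (fderiv ℝ f z I * G z) := by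
    intro z; simp only [dbar]; ring
  simp_rw [e1, e2]
  rw [integral_add ((i1 1).const_mul _) ((i1 I).const_mul _),
    integral_add ((i2 1).const_mul _) ((i2 I).const_mul _), integral_const_mul,
    integral_const_mul, integral_const_mul, integral_const_mul, key, key]
  ring


lemma ψR_neg (n : ℕ) (t : ℂ) : ψR n (-t) = ψR n t := (bmp n).normed_neg t

lemma tendsto_conv (m : ℕ) (z ζ : ℂ) :
    Tendsto (fun n => ∫ w, ψR m (z - w) * ψR n (w - ζ)) atTop (𝓝 (ψR m (z - ζ))) := by
  have h1 := ContDiffBump.convolution_tendsto_right_of_continuous (φ := bmp) (l := atTop)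
    (μ := (volume : Measure ℂ)) (g := fun v : ℂ => ψR m (z - v)) tendsto_ep
    ((ψR_continuous m).comp (by fun_prop)) ζ
  refine h1.congr fun n => ?_
  rw [convolution_def, ← integral_sub_left_eq_self (fun w => ψR m (z - w) * ψR n (w - ζ)) volume ζ]
  congr 1
  funext t
  show ψR n t • ψR m (z - (ζ - t)) = ψR m (z - (ζ - t)) * ψR n (ζ - t - ζ)
  have : ζ - t - ζ = -t := by ring
  rw [this, ψR_neg, smul_eq_mul, mul_comm]

lemma tendsto_int_mm (μ : Measure ℂ) [IsFiniteMeasure μ] (m : ℕ) (z : ℂ) :
    Tendsto (fun n => ∫ w, ψR m (z - w) * mm n μ w) atTop (𝓝 (mm m μ z)) := by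
  have hswap : ∀ n, ∫ w, ψR m (z - w) * mm n μ w =
      ∫ ζ, (∫ w, ψR m (z - w) * ψR n (w - ζ)) ∂μ := by
    intro n
    obtain ⟨B, hB⟩ := (ψR_hcs n).exists_bound_of_continuous (ψR_continuous n)
    have hint : Integrable (fun p : ℂ × ℂ => ψR m (z - p.1) * ψR n (p.1 - p.2))
        (volume.prod μ) := by
      have h1 : Integrable (fun p : ℂ × ℂ => ψR m (z - p.1)) (volume.prod μ) :=
        Integrable.comp_fst ((integrable_ψR m).comp_sub_left z) μ
      exact h1.mul_bdd (c := B) ((ψR_continuous n).comp (by fun_prop)).aestronglyMeasurable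
        (Eventually.of_forall fun p => hB _)
    rw [← integral_integral_swap hint]
    congr 1
    funext w
    rw [mm, integral_const_mul]
  simp_rw [hswap]
  obtain ⟨B, hB⟩ := (ψR_hcs m).exists_bound_of_continuous (ψR_continuous m)
  have hB0 : 0 ≤ B := (norm_nonneg _).trans (hB 0)
  unfold mm
  apply tendsto_integral_of_dominated_convergence (fun _ => B)
  · intro n
    have hint : Integrable (fun p : ℂ × ℂ => ψR m (z - p.1) * ψR n (p.1 - p.2))
        (volume.prod μ) := by
      obtain ⟨B', hB'⟩ := (ψR_hcs n).exists_bound_of_continuous (ψR_continuous n)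
      have h1 : Integrable (fun p : ℂ × ℂ => ψR m (z - p.1)) (volume.prod μ) :=
        Integrable.comp_fst ((integrable_ψR m).comp_sub_left z) μ
      exact h1.mul_bdd (c := B') ((ψR_continuous n).comp (by fun_prop)).aestronglyMeasurable
        (Eventually.of_forall fun p => hB' _)
    exact hint.integral_prod_right.aestronglyMeasurable
  · exact integrable_const B
  · intro n
    refine Eventually.of_forall fun ζ => ?_
    have hi : Integrable (fun w => B * ψR n (w - ζ)) :=
      ((integrable_ψR n).comp_sub_right ζ).const_mul B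
    calc ‖∫ w, ψR m (z - w) * ψR n (w - ζ)‖ ≤ ∫ w, B * ψR n (w - ζ) := by
          apply norm_integral_le_of_norm_le hi
          refine Eventually.of_forall fun w => ?_
          rw [norm_mul, Real.norm_of_nonneg (ψR_nonneg n _)]
          exact mul_le_mul_of_nonneg_right (hB _) (ψR_nonneg _ _)
      _ = B := by
          rw [integral_const_mul, integral_sub_right_eq_self (ψR n) ζ, integral_ψR, mul_one]
  · exact Eventually.of_forall fun ζ => tendsto_conv m z ζ

/-- the key estimate: the d-bar derivative of a mollified good function is controlled by the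
mollified measure at the same scale -/
theorem Good.dbar_mollify {μ : Measure ℂ} [IsFiniteMeasure μ] {D : Set ℂ} (hD : IsOpen D)
    {χ : ℂ → ℂ} (h : Good μ D χ) : ∃ M : ℝ, 0 ≤ M ∧ ∀ (m : ℕ) (z : ℂ), closedBall z (ep m) ⊆ D →
      ‖∫ w, χ w * dbar (ψC m) (z - w)‖ ≤ M * mm m μ z := by
  obtain ⟨M, G, h0, h1, h2, h3⟩ := h
  refine ⟨M, h0, fun m z hz => ?_⟩
  -- the test function
  set f : ℂ → ℂ := fun w => ψC m (z - w) with hf
  have hfc : ContDiff ℝ 1 f := (ψC_contDiff m).comp (by fun_prop)
  have hfs : tsupport f ⊆ closedBall z (ep m) := by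
    apply closure_minimal _ isClosed_closedBall
    intro w hw
    by_contra hcon
    apply hw
    rw [mem_closedBall, not_le, dist_comm, dist_eq_norm] at hcon
    show ψC m (z - w) = 0
    rw [ψC, ψR_zero_of_lt m hcon, Complex.ofReal_zero]
  have hfcs : HasCompactSupport f :=
    IsCompact.of_isClosed_subset (isCompact_closedBall z (ep m)) (isClosed_tsupport _) hfs
  have hdf : ∀ w, dbar f w = - dbar (ψC m) (z - w) := by
    intro w
    have hd : DifferentiableAt ℝ (ψC m) (z - w) := (ψC_contDiff m).differentiable (by norm_num) _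
    have h4 : ∀ v : ℂ, fderiv ℝ f w v = - fderiv ℝ (ψC m) (z - w) v := by
      intro v
      have h5 : HasFDerivAt (fun w : ℂ => z - w) (-ContinuousLinearMap.id ℝ ℂ) w :=
        (hasFDerivAt_id w).const_sub z
      have h6 := hd.hasFDerivAt.comp w h5
      have h7 : fderiv ℝ f w = (fderiv ℝ (ψC m) (z - w)).comp (-ContinuousLinearMap.id ℝ ℂ) :=
        h6.fderiv
      rw [h7]
      simp
    simp only [dbar, h4]
    ring
  have hdc : Continuous (fun w => dbar (ψC m) (z - w)) :=
    (dbar_continuous (ψC_contDiff m)).comp (by fun_prop)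
  have hds : tsupport (fun w => dbar (ψC m) (z - w)) ⊆ closedBall z (ep m) := by
    apply closure_minimal _ isClosed_closedBall
    intro w hw
    by_contra hcon
    apply hw
    have h4 : w ∉ tsupport f := fun h => hcon (hfs h)
    have h5 := dbar_zero_off h4
    rw [hdf] at h5
    show dbar (ψC m) (z - w) = 0
    exact neg_eq_zero.1 h5
  have hdcs : HasCompactSupport (fun w => dbar (ψC m) (z - w)) :=
    IsCompact.of_isClosed_subset (isCompact_closedBall z (ep m)) (isClosed_tsupport _) hds
  -- integration by parts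
  have hparts : ∀ n, ∫ w, G n w * dbar (ψC m) (z - w) = ∫ w, f w * dbar (G n) w := by
    intro n
    rw [integral_dbar_parts hD hfc hfcs (hfs.trans hz) (h1 n), ← integral_neg]
    congr 1
    funext w
    rw [hdf]
    ring
  -- the limit on the left
  have hlimL : Tendsto (fun n => ∫ w, G n w * dbar (ψC m) (z - w)) atTop
      (𝓝 (∫ w, χ w * dbar (ψC m) (z - w))) := by
    obtain ⟨n0, hn0⟩ := eventually_atTop.1 h2
    have hshift : Tendsto (fun n => ∫ w, G (n + n0) w * dbar (ψC m) (z - w)) atTop
      (𝓝 (∫ w, χ w * dbar (ψC m) (z - w))) := by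
      apply tendsto_integral_of_dominated_convergence
        (fun w => M * ‖dbar (ψC m) (z - w)‖)
      · intro n
        have h4 := continuous_mul_of_tsupport hD hdc (hds.trans hz) (h1 (n + n0)).continuousOn
        have h5 : (fun w => G (n + n0) w * dbar (ψC m) (z - w)) =
          fun w => dbar (ψC m) (z - w) * G (n + n0) w := by funext w; ring
        rw [h5]
        exact h4.aestronglyMeasurable
      · exact (hdc.norm.integrable_of_hasCompactSupport hdcs.norm).const_mul M
      · intro n
        refine Eventually.of_forall fun w => ?_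
        rw [norm_mul]
        by_cases hw : w ∈ D
        · exact mul_le_mul_of_nonneg_right (hn0 (n + n0) (by omega) w hw).1 (norm_nonneg _)
        · have h4 : dbar (ψC m) (z - w) = 0 := by
            have h5 : w ∉ tsupport (fun w => dbar (ψC m) (z - w)) := fun h => hw (hz (hds h))
            exact image_eq_zero_of_notMem_tsupport (f := fun w => dbar (ψC m) (z - w)) h5
          rw [h4, norm_zero, mul_zero, mul_zero]
      · filter_upwards [h3] with w hw
        by_cases hwD : w ∈ D
        · exact ((hw hwD).comp (tendsto_add_atTop_nat n0)).mul_const _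
        · have h4 : dbar (ψC m) (z - w) = 0 := by
            have h5 : w ∉ tsupport (fun w => dbar (ψC m) (z - w)) := fun h => hwD (hz (hds h))
            exact image_eq_zero_of_notMem_tsupport (f := fun w => dbar (ψC m) (z - w)) h5
          rw [h4]
          simp
    exact (tendsto_add_atTop_iff_nat n0).1 hshift
  have hlimR : Tendsto (fun n => M * ∫ w, ψR m (z - w) * mm n μ w) atTop (𝓝 (M * mm m μ z)) :=
    (tendsto_int_mm μ m z).const_mul M
  refine le_of_tendsto_of_tendsto hlimL.norm hlimR ?_
  filter_upwards [h2] with n hn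
  rw [hparts n, ← integral_const_mul]
  have hi : Integrable (fun w => M * (ψR m (z - w) * mm n μ w)) := by
    apply Integrable.const_mul
    have h4 : Continuous (fun w => ψR m (z - w) * mm n μ w) :=
      ((ψR_continuous m).comp (by fun_prop)).mul (mm_continuous n μ)
    apply h4.integrable_of_hasCompactSupport
    apply HasCompactSupport.mul_right
    have h5 : HasCompactSupport (fun w => ‖f w‖) := hfcs.norm
    have h6 : (fun w => ‖f w‖) = fun w => ψR m (z - w) := by
      funext w
      rw [hf]
      simp only [ψC, Complex.norm_real]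
      exact Real.norm_of_nonneg (ψR_nonneg _ _)
    rwa [h6] at h5
  apply norm_integral_le_of_norm_le hi
  refine Eventually.of_forall fun w => ?_
  have hfn : ‖f w‖ = ψR m (z - w) := by
    rw [hf]
    simp only [ψC, Complex.norm_real]
    exact Real.norm_of_nonneg (ψR_nonneg _ _)
  rw [norm_mul, hfn]
  by_cases hw : w ∈ D
  · calc ψR m (z - w) * ‖dbar (G n) w‖ ≤ ψR m (z - w) * (M * mm n μ w) :=
        mul_le_mul_of_nonneg_left (hn w hw).2 (ψR_nonneg _ _)
      _ = M * (ψR m (z - w) * mm n μ w) := by ring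
  · have h4 : ψR m (z - w) = 0 := by
      apply ψR_zero_of_lt
      by_contra hcon
      rw [not_lt] at hcon
      apply hw
      apply hz
      rw [mem_closedBall, dist_comm, dist_eq_norm]
      exact hcon
    rw [h4]
    simp

end Pool.Agent.H586R3.CT
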