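import Mathlib
import Pool.Agent.H586R3.CT3

set_option autoImplicit false

open MeasureTheory Metric Set Filter Topology Complex
open scoped ContDiff ENNReal

namespace Pool.Agent.H586R3.CT

open Pool.Agent.Split938 (dbar)

/-- point of the circle -/
noncomputable def cp (x : ℂ) (ρ θ : ℝ) : ℂ := x + ρ * Complex.exp (θ * I)

lemma cp_continuous (x : ℂ) : Continuous (fun p : ℝ × ℝ => cp x p.1 p.2) := by
  unfold cp; fun_prop

lemma cp_continuous' (x : ℂ) (ρ : ℝ) : Continuous (fun θ : ℝ => cp x ρ θ) := by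
  unfold cp; fun_prop

lemma dist_cp (x : ℂ) {ρ : ℝ} (hρ : 0 ≤ ρ) (θ : ℝ) : dist (cp x ρ θ) x = ρ := by
  rw [dist_eq_norm, cp, add_sub_cancel_left, norm_mul, Complex.norm_exp_ofReal_mul_I, mul_one,
    Complex.norm_real, Real.norm_of_nonneg hρ]

/-- polar coordinates on a disc -/
lemma lintegral_polar_ball (x : ℂ) (r : ℝ) {f : ℂ → ℝ≥0∞} (hf : Measurable f) :
    ∫⁻ ρ in Ioo 0 r, ∫⁻ θ in Ioo (-Real.pi) Real.pi, ENNReal.ofReal ρ * f (cp x ρ θ) =
      ∫⁻ z in ball x r, f z := by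
  have h1 : ∫⁻ z in ball x r, f z = ∫⁻ z, (ball (0 : ℂ) r).indicator (fun z => f (x + z)) z := by
    rw [← lintegral_indicator measurableSet_ball, ← lintegral_add_left_eq_self _ x]
    apply lintegral_congr
    intro z
    by_cases hz : z ∈ ball (0 : ℂ) r
    · have : x + z ∈ ball x r := by
        rw [mem_ball, dist_eq_norm, add_sub_cancel_left]; simpa using hz
      rw [indicator_of_mem hz, indicator_of_mem this]
    · have : x + z ∉ ball x r := by
        rw [mem_ball, dist_eq_norm, add_sub_cancel_left]; simpa using hz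
      rw [indicator_of_notMem hz, indicator_of_notMem this]
  rw [h1, ← Complex.lintegral_comp_polarCoord_symm]
  have htarget : polarCoord.target = Ioi (0 : ℝ) ×ˢ Ioo (-Real.pi) Real.pi := rfl
  rw [htarget]
  have h2 : ∫⁻ p in Ioi (0 : ℝ) ×ˢ Ioo (-Real.pi) Real.pi, ENNReal.ofReal p.1 •
        (ball (0 : ℂ) r).indicator (fun z => f (x + z)) (Complex.polarCoord.symm p) =
      ∫⁻ p in Ioi (0 : ℝ) ×ˢ Ioo (-Real.pi) Real.pi,
        (Iio r).indicator (fun _ => ENNReal.ofReal p.1 * f (cp x p.1 p.2)) p.1 := by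
    apply setLIntegral_congr_fun (measurableSet_Ioi.prod measurableSet_Ioo)
    rintro ⟨ρ, θ⟩ ⟨hρ, _⟩
    have hρ0 : (0 : ℝ) < ρ := hρ
    have e1 : Complex.polarCoord.symm (ρ, θ) = ρ * Complex.exp (θ * I) := by
      rw [Complex.polarCoord_symm_apply, Complex.exp_mul_I]
      push_cast
      ring
    show ENNReal.ofReal ρ • (ball (0 : ℂ) r).indicator (fun z => f (x + z))
      (Complex.polarCoord.symm (ρ, θ)) = (Iio r).indicator
        (fun _ => ENNReal.ofReal ρ * f (cp x ρ θ)) ρ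
    rw [e1]
    have e2 : ‖(ρ : ℂ) * Complex.exp (θ * I)‖ = ρ := by
      rw [norm_mul, Complex.norm_exp_ofReal_mul_I, mul_one, Complex.norm_real,
        Real.norm_of_nonneg hρ0.le]
    by_cases hr : ρ < r
    · rw [indicator_of_mem (show ρ ∈ Iio r from hr), indicator_of_mem]
      · rfl
      · rw [mem_ball_zero_iff, e2]; exact hr
    · rw [indicator_of_notMem (show ρ ∉ Iio r from hr), indicator_of_notMem]
      · simp
      · rw [mem_ball_zero_iff, e2]; exact hr
  rw [h2]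
  have hmeas : Measurable (fun p : ℝ × ℝ =>
      (Iio r).indicator (fun _ => ENNReal.ofReal p.1 * f (cp x p.1 p.2)) p.1) := by
    have : (fun p : ℝ × ℝ => (Iio r).indicator (fun _ => ENNReal.ofReal p.1 * f (cp x p.1 p.2)) p.1)
        = (Prod.fst ⁻¹' (Iio r)).indicator
          (fun p : ℝ × ℝ => ENNReal.ofReal p.1 * f (cp x p.1 p.2)) := by
      funext p
      by_cases hp : p.1 ∈ Iio r
      · rw [indicator_of_mem hp, indicator_of_mem (show p ∈ Prod.fst ⁻¹' (Iio r) from hp)]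
      · rw [indicator_of_notMem hp, indicator_of_notMem (show p ∉ Prod.fst ⁻¹' (Iio r) from hp)]
    rw [this]
    apply Measurable.indicator _ (measurable_fst measurableSet_Iio)
    exact (ENNReal.measurable_ofReal.comp measurable_fst).mul
      (hf.comp (cp_continuous x).measurable)
  have hvol : (volume : Measure (ℝ × ℝ)) = (volume : Measure ℝ).prod volume := rfl
  rw [hvol, ← Measure.prod_restrict, lintegral_prod _ hmeas.aemeasurable]
  have h3 : ∀ ρ : ℝ, ∫⁻ θ in Ioo (-Real.pi) Real.pi,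
      (Iio r).indicator (fun _ => ENNReal.ofReal ρ * f (cp x ρ θ)) ρ =
      (Iio r).indicator (fun ρ => ∫⁻ θ in Ioo (-Real.pi) Real.pi,
        ENNReal.ofReal ρ * f (cp x ρ θ)) ρ := by
    intro ρ
    by_cases hr : ρ ∈ Iio r
    · simp only [indicator_of_mem hr]
    · simp only [indicator_of_notMem hr, lintegral_zero]
  simp_rw [h3]
  rw [setLIntegral_indicator measurableSet_Iio]
  have h4 : Iio r ∩ Ioi (0 : ℝ) = Ioo 0 r := by
    ext t; simp [and_comm]
  rw [h4]

/-- null sets in polar coordinates -/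
lemma ae_polar (x : ℂ) {P : ℂ → Prop} (hP : ∀ᵐ z : ℂ, P z) (r : ℝ) :
    ∀ᵐ ρ ∂(volume.restrict (Ioo (0 : ℝ) r)), ∀ᵐ θ ∂(volume.restrict (Ioo (-Real.pi) Real.pi)),
      P (cp x ρ θ) := by
  obtain ⟨N, hNsub, hNm, hN0⟩ := exists_measurable_superset_of_null (ae_iff.1 hP)
  have h1 : ∫⁻ ρ in Ioo 0 r, ∫⁻ θ in Ioo (-Real.pi) Real.pi,
      ENNReal.ofReal ρ * N.indicator (fun _ => 1) (cp x ρ θ) = 0 := by
    rw [lintegral_polar_ball x r (measurable_const.indicator hNm)]
    rw [lintegral_indicator hNm, setLIntegral_one]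
    exact nonpos_iff_eq_zero.1 ((Measure.restrict_le_self N).trans hN0.le)
  have hmeasF : Measurable (fun p : ℝ × ℝ =>
      ENNReal.ofReal p.1 * N.indicator (fun _ => (1 : ℝ≥0∞)) (cp x p.1 p.2)) :=
    (ENNReal.measurable_ofReal.comp measurable_fst).mul
      ((measurable_const.indicator hNm).comp (cp_continuous x).measurable)
  have hmeas : Measurable (fun ρ : ℝ => ∫⁻ θ in Ioo (-Real.pi) Real.pi,
      ENNReal.ofReal ρ * N.indicator (fun _ => (1 : ℝ≥0∞)) (cp x ρ θ)) :=
    hmeasF.lintegral_prod_right'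
  rw [lintegral_eq_zero_iff hmeas] at h1
  filter_upwards [h1, ae_restrict_mem measurableSet_Ioo] with ρ hρ hρm
  have hm2 : Measurable (fun θ : ℝ =>
      ENNReal.ofReal ρ * N.indicator (fun _ => (1 : ℝ≥0∞)) (cp x ρ θ)) :=
    hmeasF.comp (measurable_const.prodMk measurable_id)
  rw [Pi.zero_apply, lintegral_eq_zero_iff hm2] at hρ
  filter_upwards [hρ] with θ hθ
  by_contra hcon
  have h2 : cp x ρ θ ∈ N := hNsub hcon
  rw [Pi.zero_apply, indicator_of_mem h2, mul_one] at hθ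
  have h3 : (0 : ℝ) < ρ := hρm.1
  simp [h3.not_ge] at hθ


/-- finiteness on almost every circle -/
lemma ae_circle_finite (x : ℂ) (r : ℝ) {f : ℂ → ℝ≥0∞} (hf : Measurable f)
    (hfin : ∫⁻ z in ball x r, f z ≠ ⊤) :
    ∀ᵐ ρ ∂(volume.restrict (Ioo (0 : ℝ) r)),
      ∫⁻ θ in Ioo (-Real.pi) Real.pi, f (cp x ρ θ) < ⊤ := by
  rw [← lintegral_polar_ball x r hf] at hfin
  have hmeasF : Measurable (fun p : ℝ × ℝ => ENNReal.ofReal p.1 * f (cp x p.1 p.2)) :=
    (ENNReal.measurable_ofReal.comp measurable_fst).mul (hf.comp (cp_continuous x).measurable)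
  have hmeas : Measurable (fun ρ : ℝ => ∫⁻ θ in Ioo (-Real.pi) Real.pi,
      ENNReal.ofReal ρ * f (cp x ρ θ)) := hmeasF.lintegral_prod_right'
  have h1 := ae_lt_top hmeas hfin
  filter_upwards [h1, ae_restrict_mem measurableSet_Ioo] with ρ hρ hρm
  have hm2 : Measurable (fun θ : ℝ => f (cp x ρ θ)) := hf.comp (cp_continuous' x ρ).measurable
  rw [lintegral_const_mul _ hm2] at hρ
  have h3 : ENNReal.ofReal ρ ≠ 0 := by
    rw [Ne, ENNReal.ofReal_eq_zero, not_le]; exact hρm.1
  exact ENNReal.lt_top_of_mul_ne_top_right hρ.ne h3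

/-- the circle integral over the symmetric interval -/
lemma circleIntegral_eq (x : ℂ) (ρ : ℝ) (f : ℂ → ℂ) :
    (∮ z in C(x, ρ), f z) = ∫ θ in (-Real.pi)..Real.pi, (I * (ρ * Complex.exp (θ * I))) * f (cp x ρ θ) := by
  rw [circleIntegral]
  have h1 : ∀ θ : ℝ, deriv (circleMap x ρ) θ • f (circleMap x ρ θ) =
      (I * (ρ * Complex.exp (θ * I))) * f (cp x ρ θ) := by
    intro θ
    rw [deriv_circleMap, circleMap_zero, smul_eq_mul, circleMap, cp]
    ring
  simp_rw [h1]
  have hper : Function.Periodic (fun θ : ℝ => (I * (ρ * Complex.exp (θ * I))) * f (cp x ρ θ))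
      (2 * Real.pi) := by
    intro θ
    have h2 : Complex.exp (((θ + 2 * Real.pi : ℝ) : ℂ) * I) = Complex.exp (θ * I) := by
      push_cast
      rw [add_mul, Complex.exp_add, Complex.exp_two_pi_mul_I, mul_one]
    simp only [cp, h2]
  have h3 := hper.intervalIntegral_add_eq (-Real.pi) 0
  have e1 : -Real.pi + 2 * Real.pi = Real.pi := by ring
  have e2 : (0 : ℝ) + 2 * Real.pi = 2 * Real.pi := by ring
  rw [e1, e2] at h3
  exact h3.symm

/-- Gauss formula: the Cauchy transform counts the mass on almost every disc -/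
lemma ae_gauss (μ : Measure ℂ) [IsFiniteMeasure μ] (x : ℂ) (r : ℝ) :
    ∀ᵐ ρ ∂(volume.restrict (Ioo (0 : ℝ) r)),
      (∮ z in C(x, ρ), CT μ z) = 2 * Real.pi * I * ((μ (ball x ρ)).toReal : ℂ) := by
  -- finiteness of the kernel integral
  have hf : Measurable (fun z : ℂ => ∫⁻ ζ, ‖(z - ζ)⁻¹‖ₑ ∂μ) :=
    Measurable.lintegral_prod_right' (f := fun p : ℂ × ℂ => ‖(p.1 - p.2)⁻¹‖ₑ) (by fun_prop)
  have hfin : ∫⁻ z in ball x r, (∫⁻ ζ, ‖(z - ζ)⁻¹‖ₑ ∂μ) ≠ ⊤ := by
    have h1 := (integrable_ker μ x r).2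
    rw [hasFiniteIntegral_iff_enorm, lintegral_prod _ (by fun_prop)] at h1
    exact h1.ne
  have h1 := ae_circle_finite x r hf hfin
  -- spheres of positive measure are countable
  have h2 : ∀ᵐ ρ ∂(volume.restrict (Ioo (0 : ℝ) r)), μ (sphere x ρ) = 0 := by
    have hc := Measure.countable_meas_level_set_pos (μ := μ) (g := fun z : ℂ => dist z x)
      (by fun_prop)
    have h3 : ∀ᵐ ρ : ℝ, ¬ (0 < μ {z : ℂ | dist z x = ρ}) := by
      have := hc.measure_zero volume
      rw [← compl_mem_ae_iff] at this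
      exact this
    have h4 := ae_restrict_of_ae (s := Ioo (0 : ℝ) r) h3
    filter_upwards [h4] with ρ hρ
    have : sphere x ρ = {z : ℂ | dist z x = ρ} := rfl
    rw [this]
    exact nonpos_iff_eq_zero.1 (not_lt.1 hρ)
  filter_upwards [h1, h2, ae_restrict_mem measurableSet_Ioo] with ρ hρ hρ2 hρm
  have hρ0 : 0 < ρ := hρm.1
  rw [circleIntegral_eq]
  have hpi : (-Real.pi) ≤ Real.pi := by linarith [Real.pi_pos]
  rw [intervalIntegral.integral_of_le hpi, integral_Ioc_eq_integral_Ioo]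
  -- swap
  have hint : Integrable (fun p : ℝ × ℂ => (I * (ρ * Complex.exp (p.1 * I))) *
      (cp x ρ p.1 - p.2)⁻¹) ((volume.restrict (Ioo (-Real.pi) Real.pi)).prod μ) := by
    have hm : Measurable (fun p : ℝ × ℂ => (I * (ρ * Complex.exp (p.1 * I))) *
      (cp x ρ p.1 - p.2)⁻¹) := by
      unfold cp
      fun_prop
    refine ⟨hm.aestronglyMeasurable, ?_⟩
    rw [hasFiniteIntegral_iff_enorm, lintegral_prod _ hm.enorm.aemeasurable]
    have h5 : ∀ θ : ℝ, ∫⁻ ζ, ‖(I * (ρ * Complex.exp (θ * I))) * (cp x ρ θ - ζ)⁻¹‖ₑ ∂μ =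
        ENNReal.ofReal ρ * ∫⁻ ζ, ‖(cp x ρ θ - ζ)⁻¹‖ₑ ∂μ := by
      intro θ
      rw [← lintegral_const_mul _ (by fun_prop)]
      apply lintegral_congr
      intro ζ
      rw [enorm_mul]
      congr 1
      rw [← enorm_norm, norm_mul, norm_mul, Complex.norm_exp_ofReal_mul_I, Complex.norm_I,
        Complex.norm_real, Real.norm_of_nonneg hρ0.le, one_mul, mul_one,
        Real.enorm_eq_ofReal hρ0.le]
    simp only [h5]
    have hmm : Measurable (fun θ : ℝ => ∫⁻ ζ, ‖(cp x ρ θ - ζ)⁻¹‖ₑ ∂μ) :=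
      hf.comp (cp_continuous' x ρ).measurable
    rw [lintegral_const_mul _ hmm]
    exact ENNReal.mul_lt_top ENNReal.ofReal_lt_top hρ
  have h6 : ∫ θ in Ioo (-Real.pi) Real.pi, (I * (ρ * Complex.exp (θ * I))) * CT μ (cp x ρ θ) =
      ∫ ζ, ∫ θ in Ioo (-Real.pi) Real.pi, (I * (ρ * Complex.exp (θ * I))) *
        (cp x ρ θ - ζ)⁻¹ ∂volume ∂μ := by
    rw [← integral_integral_swap hint]
    congr 1
    funext θ
    rw [CT, integral_const_mul]
  rw [h6]
  have h7 : ∀ᵐ ζ ∂μ, ∫ θ in Ioo (-Real.pi) Real.pi, (I * (ρ * Complex.exp (θ * I))) *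
        (cp x ρ θ - ζ)⁻¹ = (ball x ρ).indicator (fun _ => 2 * Real.pi * I) ζ := by
    have h8 : ∀ᵐ ζ ∂μ, ζ ∉ sphere x ρ := by
      rw [← compl_mem_ae_iff] at hρ2
      exact hρ2
    filter_upwards [h8] with ζ hζ
    have h9 := circleIntegral_eq x ρ (fun z => (z - ζ)⁻¹)
    rw [intervalIntegral.integral_of_le hpi, integral_Ioc_eq_integral_Ioo] at h9
    rw [← h9]
    by_cases hb : ζ ∈ ball x ρ
    · rw [indicator_of_mem hb, circleIntegral.integral_sub_inv_of_mem_ball hb]
    · rw [indicator_of_notMem hb]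
      have hout : ζ ∉ closedBall x ρ := by
        intro hcl
        rw [← ball_union_sphere] at hcl
        rcases hcl with h | h
        · exact hb h
        · exact hζ h
      have hne : ∀ z ∈ closedBall x ρ, z - ζ ≠ 0 := by
        intro z hz h0
        apply hout
        rw [← sub_eq_zero.1 h0]; exact hz
      apply circleIntegral_eq_zero_of_differentiable_on_off_countable hρ0.le countable_empty
      · exact (continuousOn_id.sub continuousOn_const).inv₀ hne
      · intro z hz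
        exact ((differentiableAt_id).sub_const ζ).inv (hne z (ball_subset_closedBall hz.1))
  rw [integral_congr_ae h7, integral_indicator measurableSet_ball, setIntegral_const]
  rw [Complex.real_smul, mul_comm]
  rfl

end Pool.Agent.H586R3.CT
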