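import Mathlib
import Pool.Agent.H586R3.CT4

set_option autoImplicit false

open MeasureTheory Metric Set Filter Topology Complex
open scoped ContDiff ENNReal

namespace Pool.Agent.H586R3.CT

open Pool.Agent.Split938 (dbar)

/-- the gradient of a real valued function is controlled by its d-bar derivative -/
lemma fderiv_le_of_real {h : ℂ → ℂ} {z : ℂ} (hd : DifferentiableAt ℝ h z)
    (hre : ∀ w, (h w).im = 0) (v : ℂ) : ‖fderiv ℝ h z v‖ ≤ 2 * ‖dbar h z‖ * ‖v‖ := by
  have him : ∀ v, (fderiv ℝ h z v).im = 0 := by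
    intro v
    have h1 : HasFDerivAt (fun w => (h w).im) (Complex.imCLM.comp (fderiv ℝ h z)) z :=
      Complex.imCLM.hasFDerivAt.comp z hd.hasFDerivAt
    have h2 : (fun w => (h w).im) = fun _ => (0 : ℝ) := funext hre
    rw [h2] at h1
    have h3 := h1.unique (hasFDerivAt_const (0 : ℝ) z)
    have h4 := congrArg (fun L : ℂ →L[ℝ] ℝ => L v) h3
    simpa using h4
  set a : ℝ := (fderiv ℝ h z 1).re with ha
  set b : ℝ := (fderiv ℝ h z I).re with hb
  have ha' : fderiv ℝ h z 1 = (a : ℂ) := Complex.ext rfl (by rw [him]; simp)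
  have hb' : fderiv ℝ h z I = (b : ℂ) := Complex.ext rfl (by rw [him]; simp)
  have hv : fderiv ℝ h z v = ((v.re * a + v.im * b : ℝ) : ℂ) := by
    have e1 : v = v.re • (1 : ℂ) + v.im • I := by simp
    conv_lhs => rw [e1]
    rw [map_add, map_smul, map_smul, ha', hb', Complex.real_smul, Complex.real_smul]
    push_cast
    ring
  have hdb : dbar h z = ((a : ℂ) + I * b) / 2 := by
    simp only [dbar, ha', hb']
  have hn1 : ‖dbar h z‖ ^ 2 = (a ^ 2 + b ^ 2) / 4 := by
    rw [hdb, ← Complex.normSq_eq_norm_sq, Complex.normSq_apply]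
    simp
    ring
  have hn2 : ‖v‖ ^ 2 = v.re ^ 2 + v.im ^ 2 := by
    rw [← Complex.normSq_eq_norm_sq, Complex.normSq_apply]; ring
  rw [hv, Complex.norm_real, Real.norm_eq_abs]
  apply abs_le_of_sq_le_sq _ (by positivity)
  have : (2 * ‖dbar h z‖ * ‖v‖) ^ 2 = 4 * ‖dbar h z‖ ^ 2 * ‖v‖ ^ 2 := by ring
  rw [this, hn1, hn2]
  nlinarith [sq_nonneg (v.re * b - v.im * a)]

/-- oscillation along a circle -/
lemma osc_le {h : ℂ → ℂ} (hc : ContDiff ℝ 1 h) (hre : ∀ w, (h w).im = 0) (x : ℂ) {ρ : ℝ}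
    (hρ : 0 ≤ ρ) {K : ℂ → ℝ} (hK : Continuous K) (hb : ∀ θ, ‖dbar h (cp x ρ θ)‖ ≤ K (cp x ρ θ))
    {α β : ℝ} (hα : α ∈ Icc (-Real.pi) Real.pi) (hβ : β ∈ Icc (-Real.pi) Real.pi) :
    ENNReal.ofReal ‖h (cp x ρ β) - h (cp x ρ α)‖ ≤
      ∫⁻ θ in Ioo (-Real.pi) Real.pi, ENNReal.ofReal (2 * (ρ * K (cp x ρ θ))) := by
  wlog hab : α ≤ β generalizing α β
  · rw [norm_sub_rev]
    exact this hβ hα (le_of_not_ge hab)
  have hd : ∀ θ : ℝ, HasDerivAt (fun θ : ℝ => h (cp x ρ θ))
      (fderiv ℝ h (cp x ρ θ) (ρ * (I * Complex.exp (θ * I)))) θ := by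
    intro θ
    have h1 : HasDerivAt (fun θ : ℝ => cp x ρ θ) (ρ * (I * Complex.exp (θ * I))) θ := by
      have h0 : HasDerivAt (fun θ : ℝ => (θ : ℂ) * I) I θ := by
        have := (Complex.ofRealCLM.hasDerivAt (x := θ)).mul_const I
        simpa using this
      have h2 := ((h0.cexp).const_mul (ρ : ℂ)).const_add x
      refine h2.congr_deriv ?_
      ring
    exact ((hc.differentiable (by norm_num)) (cp x ρ θ)).hasFDerivAt.comp_hasDerivAt θ h1
  have hcont : Continuous (fun θ : ℝ => fderiv ℝ h (cp x ρ θ) (ρ * (I * Complex.exp (θ * I)))) := by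
    have h3 : Continuous (fderiv ℝ h) := hc.continuous_fderiv (by norm_num)
    exact (h3.comp (cp_continuous' x ρ)).clm_apply (by fun_prop)
  have hKc : Continuous (fun θ : ℝ => 2 * (ρ * K (cp x ρ θ))) :=
    continuous_const.mul (continuous_const.mul (hK.comp (cp_continuous' x ρ)))
  have hle : ∀ θ : ℝ, ‖fderiv ℝ h (cp x ρ θ) (ρ * (I * Complex.exp (θ * I)))‖ ≤
      2 * (ρ * K (cp x ρ θ)) := by
    intro θ
    have h4 := fderiv_le_of_real ((hc.differentiable (by norm_num)) (cp x ρ θ)) hre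
      (ρ * (I * Complex.exp (θ * I)))
    have h5 : ‖(ρ : ℂ) * (I * Complex.exp (θ * I))‖ = ρ := by
      rw [norm_mul, norm_mul, Complex.norm_exp_ofReal_mul_I, Complex.norm_I, Complex.norm_real,
        Real.norm_of_nonneg hρ, mul_one, mul_one]
    rw [h5] at h4
    have h6 := hb θ
    nlinarith
  have hpos : ∀ θ : ℝ, 0 ≤ 2 * (ρ * K (cp x ρ θ)) := fun θ => (norm_nonneg _).trans (hle θ)
  have h7 : ‖h (cp x ρ β) - h (cp x ρ α)‖ ≤ ∫ θ in α..β, 2 * (ρ * K (cp x ρ θ)) := by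
    rw [← intervalIntegral.integral_eq_sub_of_hasDerivAt (fun θ _ => hd θ)
      (hcont.intervalIntegrable _ _)]
    exact intervalIntegral.norm_integral_le_of_norm_le hab
      (Eventually.of_forall fun θ _ => hle θ) (hKc.intervalIntegrable _ _)
  calc ENNReal.ofReal ‖h (cp x ρ β) - h (cp x ρ α)‖
      ≤ ENNReal.ofReal (∫ θ in α..β, 2 * (ρ * K (cp x ρ θ))) := ENNReal.ofReal_le_ofReal h7
    _ = ∫⁻ θ in Ioc α β, ENNReal.ofReal (2 * (ρ * K (cp x ρ θ))) := by
        rw [intervalIntegral.integral_of_le hab]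
        apply ofReal_integral_eq_lintegral_ofReal
        · exact (hKc.integrableOn_Icc (a := α) (b := β)).mono_set Ioc_subset_Icc_self
        · exact Eventually.of_forall hpos
    _ ≤ ∫⁻ θ in Icc (-Real.pi) Real.pi, ENNReal.ofReal (2 * (ρ * K (cp x ρ θ))) := by
        apply lintegral_mono_set
        intro θ hθ
        exact ⟨hα.1.trans hθ.1.le, hθ.2.trans hβ.2⟩
    _ = ∫⁻ θ in Ioo (-Real.pi) Real.pi, ENNReal.ofReal (2 * (ρ * K (cp x ρ θ))) :=
        setLIntegral_congr Ioo_ae_eq_Icc.symm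

/-- the core density lemma -/
theorem density_core (μ : Measure ℂ) [IsFiniteMeasure μ] {D : Set ℂ} (hDo : IsOpen D) {x : ℂ}
    {r M : ℝ} (hr : 0 < r) (hM : 0 ≤ M) (hD : closedBall x (2 * r) ⊆ D) {k : ℕ}
    (A : Fin k → ℂ → ℂ) (hA : ∀ j, DifferentiableOn ℂ (A j) D) (E : Fin k → Set ℂ)
    (hE : ∀ j, MeasurableSet (E j)) (hcov : ∀ᵐ z : ℂ, z ∈ D → ∃ j, z ∈ E j)
    (hval : ∀ᵐ z : ℂ, z ∈ D → ∀ j, z ∈ E j → CT μ z = A j z)
    (hb : ∀ (j : Fin k) (m : ℕ) (z : ℂ), closedBall z (ep m) ⊆ D →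
      ‖dbar (mo m ((E j).indicator (fun _ => (1 : ℂ)))) z‖ ≤ M * mm m μ z)
    (hsmall : μ (ball x (2 * r)) < ENNReal.ofReal (r / (16 * (M + 1)))) :
    μ (ball x (r / 2)) = 0 := by
  classical
  set χ : Fin k → ℂ → ℂ := fun j => (E j).indicator (fun _ => (1 : ℂ)) with hχ
  have hχloc : ∀ j, LocallyIntegrable (χ j) volume := by
    intro j
    apply LocallyIntegrable.indicator _ (hE j)
    exact locallyIntegrable_const _
  have hχre : ∀ j m z, (mo m (χ j) z).im = 0 := by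
    intro j m z
    have h1 : mo m (χ j) z = ((∫ w, (E j).indicator (fun _ => (1 : ℝ)) w * ψR m (z - w) : ℝ) : ℂ) := by
      rw [← integral_complex_ofReal]
      unfold mo
      congr 1
      funext w
      by_cases hw : w ∈ E j
      · simp [hχ, hw, ψC]
      · simp [hχ, hw]
    rw [h1, Complex.ofReal_im]
  -- the pointwise good property
  set P : ℂ → Prop := fun z => (z ∈ D → ∃ j, z ∈ E j) ∧ (z ∈ D → ∀ j, z ∈ E j → CT μ z = A j z) ∧
    ∀ j, Tendsto (fun m => mo m (χ j) z) atTop (𝓝 (χ j z)) with hPdef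
  have hP : ∀ᵐ z : ℂ, P z := by
    have h1 : ∀ᵐ z : ℂ, ∀ j, Tendsto (fun m => mo m (χ j) z) atTop (𝓝 (χ j z)) := by
      rw [ae_all_iff]
      exact fun j => ae_tendsto_mo (hχloc j)
    filter_upwards [hcov, hval, h1] with z h2 h3 h4 using ⟨h2, h3, h4⟩
  have hPpol := ae_polar x hP r
  have hGauss := ae_gauss μ x r
  -- the circle masses
  set W : ℕ → ℝ → ℝ≥0∞ := fun m ρ => ∫⁻ θ in Ioo (-Real.pi) Real.pi,
    ENNReal.ofReal ρ * ENNReal.ofReal (mm m μ (cp x ρ θ)) with hW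
  have hmmm : ∀ m, Measurable (fun z => ENNReal.ofReal (mm m μ z)) := fun m =>
    ENNReal.measurable_ofReal.comp (mm_continuous m μ).measurable
  have hWmeas : ∀ m, Measurable (W m) := by
    intro m
    have hmeasF : Measurable (fun p : ℝ × ℝ => ENNReal.ofReal p.1 *
        ENNReal.ofReal (mm m μ (cp x p.1 p.2))) :=
      (ENNReal.measurable_ofReal.comp measurable_fst).mul
        ((hmmm m).comp (cp_continuous x).measurable)
    exact hmeasF.lintegral_prod_right'
  have hWint : ∀ m, ∫⁻ ρ in Ioo 0 r, W m ρ ≤ μ (ball x (r + ep m)) := by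
    intro m
    rw [hW]
    simp only
    rw [lintegral_polar_ball x r (hmmm m)]
    exact lintegral_mm_le m μ x r
  have hFatou : ∫⁻ ρ in Ioo 0 r, liminf (fun m => W m ρ) atTop ≤ μ (ball x (2 * r)) := by
    refine (lintegral_liminf_le hWmeas).trans ?_
    apply liminf_le_of_frequently_le'
    apply Eventually.frequently
    have h1 : ∀ᶠ m in atTop, ep m < r := tendsto_ep.eventually (gt_mem_nhds hr)
    filter_upwards [h1] with m hm
    exact (hWint m).trans (measure_mono (ball_subset_ball (by linarith)))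
  -- choose the radius
  set c : ℝ≥0∞ := ENNReal.ofReal (1 / (8 * (M + 1))) with hc
  obtain ⟨ρ, hρ1, hρ2, hρP, hρG, hρW⟩ : ∃ ρ : ℝ, r / 2 < ρ ∧ ρ < r ∧
      (∀ᵐ θ ∂(volume.restrict (Ioo (-Real.pi) Real.pi)), P (cp x ρ θ)) ∧
      (∮ z in C(x, ρ), CT μ z) = 2 * Real.pi * I * ((μ (ball x ρ)).toReal : ℂ) ∧
      liminf (fun m => W m ρ) atTop < c := by
    by_contra hcon
    push Not at hcon
    have h1 : ∀ᵐ ρ ∂(volume.restrict (Ioo (0 : ℝ) r)),
        (Ioo (r / 2) r).indicator (fun _ => c) ρ ≤ liminf (fun m => W m ρ) atTop := by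
      filter_upwards [hPpol, hGauss] with ρ g1 g2
      by_cases hρ : ρ ∈ Ioo (r / 2) r
      · rw [indicator_of_mem hρ]
        exact hcon ρ hρ.1 hρ.2 g1 g2
      · rw [indicator_of_notMem hρ]
        exact zero_le
    have h2 : ∫⁻ ρ in Ioo 0 r, (Ioo (r / 2) r).indicator (fun _ => c) ρ ≤ μ (ball x (2 * r)) :=
      (lintegral_mono_ae h1).trans hFatou
    rw [setLIntegral_indicator measurableSet_Ioo] at h2
    have h3 : Ioo (r / 2) r ∩ Ioo 0 r = Ioo (r / 2) r := by
      apply inter_eq_self_of_subset_left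
      intro t ht
      exact ⟨by linarith [ht.1], ht.2⟩
    rw [h3, setLIntegral_const, Real.volume_Ioo, hc, ← ENNReal.ofReal_mul (by positivity)] at h2
    have h4 : 1 / (8 * (M + 1)) * (r - r / 2) = r / (16 * (M + 1)) := by
      field_simp
      ring
    rw [h4] at h2
    exact absurd hsmall (not_lt.2 h2)
  have hρ0 : 0 < ρ := by linarith
  -- the mollified indicator functions have small oscillation frequently
  have hfreq : ∃ᶠ m in atTop, W m ρ < c := frequently_lt_of_liminf_lt (h := hρW)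
  have hepr : ∀ᶠ m in atTop, ep m < r := tendsto_ep.eventually (gt_mem_nhds hr)
  have hosc : ∃ᶠ m in atTop, ∀ j, ∀ α ∈ Icc (-Real.pi) Real.pi, ∀ β ∈ Icc (-Real.pi) Real.pi,
      ‖mo m (χ j) (cp x ρ β) - mo m (χ j) (cp x ρ α)‖ ≤ 1 / 4 := by
    refine (hfreq.and_eventually hepr).mono ?_
    rintro m ⟨hm, hme⟩ j α hα β hβ
    have h1 := osc_le (mo_contDiff m (hχloc j)) (hχre j m) x hρ0.le
      (K := fun z => M * mm m μ z) (continuous_const.mul (mm_continuous m μ))
      (fun θ => hb j m (cp x ρ θ) (by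
        intro w hw
        apply hD
        rw [mem_closedBall] at hw ⊢
        calc dist w x ≤ dist w (cp x ρ θ) + dist (cp x ρ θ) x := dist_triangle _ _ _
          _ ≤ ep m + ρ := by rw [dist_cp x hρ0.le]; linarith
          _ ≤ 2 * r := by linarith)) hα hβ
    have h2 : ∫⁻ θ in Ioo (-Real.pi) Real.pi, ENNReal.ofReal (2 * (ρ * (M * mm m μ (cp x ρ θ)))) =
        ENNReal.ofReal (2 * M) * W m ρ := by
      rw [hW]
      simp only
      rw [← lintegral_const_mul]
      · apply lintegral_congr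
        intro θ
        rw [← ENNReal.ofReal_mul hρ0.le, ← ENNReal.ofReal_mul (by positivity)]
        congr 1
        ring
      · exact (measurable_const.mul ((hmmm m).comp (cp_continuous' x ρ).measurable))
    rw [h2] at h1
    have h3 : ENNReal.ofReal (2 * M) * W m ρ ≤ ENNReal.ofReal (1 / 4) := by
      calc ENNReal.ofReal (2 * M) * W m ρ ≤ ENNReal.ofReal (2 * M) * c := by gcongr
        _ = ENNReal.ofReal (2 * M * (1 / (8 * (M + 1)))) := by
            rw [hc, ← ENNReal.ofReal_mul (by positivity)]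
        _ ≤ ENNReal.ofReal (1 / 4) := by
            apply ENNReal.ofReal_le_ofReal
            rw [mul_one_div, div_le_div_iff₀ (by positivity) (by norm_num)]
            nlinarith
    exact (ENNReal.ofReal_le_ofReal_iff (by norm_num)).1 (h1.trans h3)
  -- values are equal on the circle
  have heq : ∀ j, ∀ α ∈ Ioo (-Real.pi) Real.pi, ∀ β ∈ Ioo (-Real.pi) Real.pi,
      P (cp x ρ α) → P (cp x ρ β) → cp x ρ α ∈ E j → cp x ρ β ∈ E j := by
    intro j α hα β hβ hPα hPβ hαE
    by_contra hβE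
    have h1 : χ j (cp x ρ α) = 1 := by simp [hχ, hαE]
    have h2 : χ j (cp x ρ β) = 0 := by simp [hχ, hβE]
    have h3 : Tendsto (fun m => ‖mo m (χ j) (cp x ρ β) - mo m (χ j) (cp x ρ α)‖) atTop
        (𝓝 ‖χ j (cp x ρ β) - χ j (cp x ρ α)‖) := ((hPβ.2.2 j).sub (hPα.2.2 j)).norm
    rw [h1, h2, zero_sub, norm_neg, norm_one] at h3
    have h4 : ∀ᶠ m in atTop, 1 / 4 < ‖mo m (χ j) (cp x ρ β) - mo m (χ j) (cp x ρ α)‖ :=
      h3.eventually (lt_mem_nhds (by norm_num))
    obtain ⟨m, hm1, hm2⟩ := (hosc.and_eventually h4).exists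
    have := hm1 j α ⟨hα.1.le, hα.2.le⟩ β ⟨hβ.1.le, hβ.2.le⟩
    linarith
  have hsphere : ∀ θ, cp x ρ θ ∈ D := fun θ => hD (by
    rw [mem_closedBall, dist_cp x hρ0.le]; linarith)
  -- a reference point
  obtain ⟨θ₀, hθ₀, hPθ₀⟩ : ∃ θ₀ ∈ Ioo (-Real.pi) Real.pi, P (cp x ρ θ₀) := by
    have hne : (ae (volume.restrict (Ioo (-Real.pi) Real.pi))).NeBot := by
      rw [ae_neBot]
      intro h0
      have := congrArg (fun ν : Measure ℝ => ν univ) h0
      simp only [Measure.restrict_apply_univ, Real.volume_Ioo, Measure.coe_zero, Pi.zero_apply,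
        ENNReal.ofReal_eq_zero] at this
      linarith [Real.pi_pos]
    obtain ⟨θ, h1, h2⟩ := (hρP.and (ae_restrict_mem measurableSet_Ioo)).exists
    exact ⟨θ, h2, h1⟩
  obtain ⟨j₀, hj₀⟩ := hPθ₀.1 (hsphere θ₀)
  have hae : ∀ᵐ θ ∂(volume.restrict (Ioo (-Real.pi) Real.pi)),
      CT μ (cp x ρ θ) = A j₀ (cp x ρ θ) := by
    filter_upwards [hρP, ae_restrict_mem measurableSet_Ioo] with θ h1 h2
    exact h1.2.1 (hsphere θ) j₀ (heq j₀ θ₀ hθ₀ θ h2 hPθ₀ h1 hj₀)
  have hcirc : (∮ z in C(x, ρ), CT μ z) = 0 := by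
    have h1 : (∮ z in C(x, ρ), A j₀ z) = 0 := by
      apply circleIntegral_eq_zero_of_differentiable_on_off_countable hρ0.le countable_empty
      · exact (hA j₀).continuousOn.mono ((closedBall_subset_closedBall (by linarith)).trans hD)
      · intro z hz
        exact (hA j₀).differentiableAt (hDo.mem_nhds (hD (closedBall_subset_closedBall
          (by linarith) (ball_subset_closedBall hz.1))))
    rw [← h1, circleIntegral_eq, circleIntegral_eq]
    have hpi : (-Real.pi) ≤ Real.pi := by linarith [Real.pi_pos]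
    rw [intervalIntegral.integral_of_le hpi, intervalIntegral.integral_of_le hpi,
      integral_Ioc_eq_integral_Ioo, integral_Ioc_eq_integral_Ioo]
    apply integral_congr_ae
    filter_upwards [hae] with θ hθ
    rw [hθ]
  rw [hcirc] at hρG
  have h5 : (μ (ball x ρ)).toReal = 0 := by
    have h6 : (2 * (Real.pi : ℂ) * I) ≠ 0 := by
      simp [Real.pi_ne_zero]
    rcases mul_eq_zero.1 hρG.symm with h7 | h7
    · exact absurd h7 h6
    · exact_mod_cast h7
  have h6 : μ (ball x ρ) = 0 := by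
    rcases (ENNReal.toReal_eq_zero_iff _).1 h5 with h7 | h7
    · exact h7
    · exact absurd h7 (measure_ne_top μ _)
  exact measure_mono_null (ball_subset_ball (by linarith)) h6

end Pool.Agent.H586R3.CT
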