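import Mathlib
import Pool.Agent.H586R3.CT5

set_option autoImplicit false

open MeasureTheory Metric Set Filter Topology Complex
open scoped ContDiff ENNReal

namespace Pool.Agent.H586R3.CT

open Pool.Agent.Split938 (dbar)

lemma measurable_CT (μ : Measure ℂ) [IsFiniteMeasure μ] : Measurable (CT μ) :=
  (measurable_ker.stronglyMeasurable.integral_prod_right').measurable

/-- lower density of the measure at points of its support -/
theorem local_density (μ : Measure ℂ) [IsFiniteMeasure μ] {x₀ : ℂ} {R : ℝ} (hR : 0 < R) {k : ℕ}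
    (A : Fin k → ℂ → ℂ) (hA : ∀ j, DifferentiableOn ℂ (A j) (ball x₀ R))
    (hne : ∀ i j, i ≠ j → ∀ z ∈ ball x₀ R, A i z ≠ A j z)
    (hval : ∀ᵐ z : ℂ, z ∈ ball x₀ R → ∃ j, CT μ z = A j z) :
    ∃ c > 0, ∀ x ∈ μ.support ∩ ball x₀ (R / 4), ∀ r : ℝ, 0 < r → r < R / 8 →
      ENNReal.ofReal (c * r) ≤ μ (ball x (2 * r)) := by
  classical
  set D : Set ℂ := ball x₀ (R / 2) with hDdef
  have hDo : IsOpen D := isOpen_ball
  have hDR : D ⊆ ball x₀ R := ball_subset_ball (by linarith)
  set K : Set ℂ := closedBall x₀ (3 * R / 4) with hK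
  have hKc : IsCompact K := isCompact_closedBall _ _
  have hKR : K ⊆ ball x₀ R := closedBall_subset_ball (by linarith)
  have hDK : D ⊆ K := (ball_subset_ball (by linarith)).trans ball_subset_closedBall
  -- bounds
  have hbdA : ∀ j, ∃ M, 0 ≤ M ∧ ∀ z ∈ K, ‖A j z‖ ≤ M := by
    intro j
    obtain ⟨M, hM⟩ := hKc.exists_bound_of_continuousOn ((hA j).continuousOn.mono hKR)
    exact ⟨max M 0, le_max_right _ _, fun z hz => (hM z hz).trans (le_max_left _ _)⟩
  choose MA hMA0 hMA using hbdA
  have hbdI : ∀ i j, i ≠ j → ∃ M, 0 ≤ M ∧ ∀ z ∈ K, ‖(A j z - A i z)⁻¹‖ ≤ M := by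
    intro i j hij
    obtain ⟨M, hM⟩ := hKc.exists_bound_of_continuousOn (f := fun z => (A j z - A i z)⁻¹)
      ((((hA j).continuousOn.sub (hA i).continuousOn).inv₀
        (fun z hz => sub_ne_zero.2 (hne j i hij.symm z hz))).mono hKR)
    exact ⟨max M 0, le_max_right _ _, fun z hz => (hM z hz).trans (le_max_left _ _)⟩
  have hgoodC : Good μ D (CT μ) := by
    refine good_CT μ (R := R / 2) (R' := 3 * R / 4) (by linarith) (M := ∑ j, MA j)
      (Finset.sum_nonneg fun j _ => hMA0 j) ?_
    filter_upwards [hval] with z hz hzb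
    have hzK : z ∈ K := ball_subset_closedBall hzb
    obtain ⟨j, hj⟩ := hz (hKR hzK)
    rw [hj]
    exact (hMA j z hzK).trans (Finset.single_le_sum (fun j _ => hMA0 j) (Finset.mem_univ j))
  have hgoodA : ∀ j, Good μ D (A j) := fun j =>
    good_of_holomorphic hDo ((hA j).mono hDR) (hMA0 j) fun z hz => hMA j z (hDK hz)
  -- the indicator functions
  set E : Fin k → Set ℂ := fun j => D ∩ {z | CT μ z = A j z} with hE
  have hEm : ∀ j, MeasurableSet (E j) := by
    intro j
    have h1 : E j = D ∩ {z | CT μ z = D.indicator (A j) z} := by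
      ext z
      simp only [hE, mem_inter_iff, mem_ofPred_eq]
      constructor
      · rintro ⟨h1, h2⟩; exact ⟨h1, by rw [indicator_of_mem h1]; exact h2⟩
      · rintro ⟨h1, h2⟩; rw [indicator_of_mem h1] at h2; exact ⟨h1, h2⟩
    rw [h1]
    apply measurableSet_ball.inter
    apply measurableSet_eq_fun (measurable_CT μ)
    have h2 : ContinuousOn (A j) D := (hA j).continuousOn.mono hDR
    have h3 : Measurable (D.indicator (A j)) := by
      have h4 : Measurable (D.piecewise (A j) (fun _ => 0)) :=
        ContinuousOn.measurable_piecewise h2 continuousOn_const measurableSet_ball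
      have h5 : D.piecewise (A j) (fun _ => 0) = D.indicator (A j) := by
        funext z
        by_cases hz : z ∈ D
        · rw [piecewise_eq_of_mem _ _ _ hz, indicator_of_mem hz]
        · rw [piecewise_eq_of_notMem _ _ _ hz, indicator_of_notMem hz]
      rw [← h5]
      exact h4
    exact h3
  have hgoodE : ∀ j, Good μ D ((E j).indicator (fun _ => (1 : ℂ))) := by
    intro j
    have h1 : Good μ D (fun z => ∏ i ∈ Finset.univ.erase j,
        ((CT μ z + (-1) * A i z) * (A j z - A i z)⁻¹)) := by
      apply Good.prod hDo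
      intro i hi
      have hij : i ≠ j := (Finset.mem_erase.1 hi).1
      apply Good.mul hDo
      · apply Good.add hDo hgoodC
        apply Good.mul hDo
        · exact good_of_holomorphic hDo (differentiableOn_const (-1)) (M := 1) zero_le_one
            (fun z _ => by simp)
        · exact hgoodA i
      · obtain ⟨M, hM0, hM⟩ := hbdI i j hij
        apply good_of_holomorphic hDo _ hM0 (fun z hz => hM z (hDK hz))
        exact (((hA j).sub (hA i)).inv (fun z hz => sub_ne_zero.2 (hne j i hij.symm z hz))).mono hDR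
    refine h1.congr ?_
    filter_upwards [hval] with z hz hzD
    obtain ⟨l, hl⟩ := hz (hDR hzD)
    by_cases hlj : l = j
    · subst hlj
      have hzE : z ∈ E l := ⟨hzD, hl⟩
      rw [indicator_of_mem hzE]
      apply Finset.prod_eq_one
      intro i hi
      have hij : i ≠ l := (Finset.mem_erase.1 hi).1
      rw [hl]
      have h2 : A l z - A i z ≠ 0 := sub_ne_zero.2 (hne l i hij.symm z (hDR hzD))
      have h3 : A l z + -1 * A i z = A l z - A i z := by ring
      rw [h3, mul_inv_cancel₀ h2]
    · have hzE : z ∉ E j := by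
        rintro ⟨_, h2⟩
        have h3 : CT μ z = A j z := h2
        exact hne l j hlj z (hDR hzD) (hl.symm.trans h3)
      rw [indicator_of_notMem hzE]
      apply Finset.prod_eq_zero (i := l) (Finset.mem_erase.2 ⟨hlj, Finset.mem_univ _⟩)
      rw [hl]
      ring
  have hloc : ∀ j, LocallyIntegrable ((E j).indicator (fun _ => (1 : ℂ))) volume := fun j =>
    (locallyIntegrable_const (1 : ℂ)).indicator (hEm j)
  choose MB hMB0 hMB using fun j => (hgoodE j).dbar_mollify hDo
  set M : ℝ := ∑ j, MB j with hM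
  have hM0 : 0 ≤ M := Finset.sum_nonneg fun j _ => hMB0 j
  have hb : ∀ (j : Fin k) (m : ℕ) (z : ℂ), closedBall z (ep m) ⊆ D →
      ‖dbar (mo m ((E j).indicator (fun _ => (1 : ℂ)))) z‖ ≤ M * mm m μ z := by
    intro j m z hz
    rw [dbar_mo m (hloc j)]
    refine (hMB j m z hz).trans ?_
    exact mul_le_mul_of_nonneg_right
      (Finset.single_le_sum (fun j _ => hMB0 j) (Finset.mem_univ j)) (mm_nonneg m μ z)
  refine ⟨1 / (16 * (M + 1)), by positivity, ?_⟩
  rintro x ⟨hxs, hxb⟩ r hr hrR
  by_contra hcon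
  rw [not_le] at hcon
  have hsub : closedBall x (2 * r) ⊆ D := by
    intro w hw
    rw [mem_closedBall] at hw
    rw [mem_ball] at hxb
    rw [hDdef, mem_ball]
    calc dist w x₀ ≤ dist w x + dist x x₀ := dist_triangle _ _ _
      _ < R / 2 := by linarith
  have h0 : μ (ball x (r / 2)) = 0 := by
    apply density_core μ hDo hr hM0 hsub A (fun j => (hA j).mono hDR) E hEm _ _ hb
    · refine hcon.trans_le (le_of_eq ?_)
      congr 1
      ring
    · filter_upwards [hval] with z hz hzD
      obtain ⟨j, hj⟩ := hz (hDR hzD)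
      exact ⟨j, hzD, hj⟩
    · exact Eventually.of_forall fun z _ j hj => hj.2
  have h1 := (Measure.mem_support_iff_forall x).1 hxs (ball x (r / 2))
    (ball_mem_nhds x (by positivity))
  exact absurd h0 h1.ne'

/-- a set at each point of which a finite measure has lower linear density is a null set -/
theorem volume_zero_of_density (μ : Measure ℂ) [IsFiniteMeasure μ] {S : Set ℂ}
    (hS : Bornology.IsBounded S) {c r₀ : ℝ} (hc : 0 < c) (hr₀ : 0 < r₀)
    (h : ∀ x ∈ S, ∀ r : ℝ, 0 < r → r < r₀ → ENNReal.ofReal (c * r) ≤ μ (ball x (2 * r))) :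
    volume S = 0 := by
  have hfin : volume S ≠ ⊤ := hS.measure_lt_top.ne
  have key : ∀ r : ℝ, 0 < r → r < r₀ →
      (volume S).toReal * c ≤ 4 * Real.pi * (μ univ).toReal * r := by
    intro r hr hr1
    have hm : Measurable (fun p : ℂ × ℂ => (ball (0 : ℂ) (2 * r)).indicator (fun _ => (1 : ℝ≥0∞))
        (p.2 - p.1)) := (measurable_const.indicator measurableSet_ball).comp (by fun_prop)
    have hball : ∀ z, μ (ball z (2 * r)) =
        ∫⁻ ζ, (ball (0 : ℂ) (2 * r)).indicator (fun _ => (1 : ℝ≥0∞)) (ζ - z) ∂μ := by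
      intro z
      have h1 : (fun ζ : ℂ => (ball (0 : ℂ) (2 * r)).indicator (fun _ => (1 : ℝ≥0∞)) (ζ - z)) =
          (ball z (2 * r)).indicator (fun _ => 1) := by
        funext ζ
        by_cases hζ : ζ ∈ ball z (2 * r)
        · rw [indicator_of_mem hζ, indicator_of_mem]
          rw [mem_ball_zero_iff, ← dist_eq_norm]; exact hζ
        · rw [indicator_of_notMem hζ, indicator_of_notMem]
          rw [mem_ball_zero_iff, ← dist_eq_norm]; exact hζ
      rw [h1, lintegral_indicator measurableSet_ball, setLIntegral_one]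
    have hmeas : Measurable (fun z => μ (ball z (2 * r))) := by
      simp_rw [hball]
      exact hm.lintegral_prod_right'
    have h1 : ENNReal.ofReal (c * r) * volume {z | ENNReal.ofReal (c * r) ≤ μ (ball z (2 * r))} ≤
        ∫⁻ z, μ (ball z (2 * r)) := mul_meas_ge_le_lintegral hmeas _
    have h2 : ∫⁻ z, μ (ball z (2 * r)) = μ univ * (ENNReal.ofReal (2 * r) ^ 2 * NNReal.pi) := by
      simp_rw [hball]
      rw [lintegral_lintegral_swap hm.aemeasurable]
      have h3 : ∀ ζ : ℂ, ∫⁻ z, (ball (0 : ℂ) (2 * r)).indicator (fun _ => (1 : ℝ≥0∞)) (ζ - z) =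
          ENNReal.ofReal (2 * r) ^ 2 * NNReal.pi := by
        intro ζ
        rw [lintegral_sub_left_eq_self
          (fun z => (ball (0 : ℂ) (2 * r)).indicator (fun _ => (1 : ℝ≥0∞)) z) ζ,
          lintegral_indicator measurableSet_ball, setLIntegral_one, Complex.volume_ball]
      simp_rw [h3]
      rw [lintegral_const, mul_comm]
    have h4 : volume S ≤ volume {z | ENNReal.ofReal (c * r) ≤ μ (ball z (2 * r))} :=
      measure_mono fun x hx => h x hx r hr hr1
    have h5 : ENNReal.ofReal (c * r) * volume S ≤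
        μ univ * (ENNReal.ofReal (2 * r) ^ 2 * NNReal.pi) := by
      rw [← h2]
      exact (mul_le_mul_right h4 _).trans h1
    have h6 := ENNReal.toReal_mono (by
      apply ENNReal.mul_ne_top (measure_ne_top μ _)
      exact ENNReal.mul_ne_top (ENNReal.pow_ne_top ENNReal.ofReal_ne_top) (by simp)) h5
    rw [ENNReal.toReal_mul, ENNReal.toReal_mul, ENNReal.toReal_mul, ENNReal.toReal_pow,
      ENNReal.toReal_ofReal (by positivity), ENNReal.toReal_ofReal (by positivity)] at h6
    have h7 : ((NNReal.pi : ℝ≥0∞)).toReal = Real.pi := by simp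
    rw [h7] at h6
    have h8 : ((volume S).toReal * c) * r ≤ (4 * Real.pi * (μ univ).toReal * r) * r := by
      calc ((volume S).toReal * c) * r = c * r * (volume S).toReal := by ring
        _ ≤ (μ univ).toReal * ((2 * r) ^ 2 * Real.pi) := h6
        _ = (4 * Real.pi * (μ univ).toReal * r) * r := by ring
    exact le_of_mul_le_mul_right h8 hr
  have h1 : (volume S).toReal * c ≤ 0 := by
    have h2 : Tendsto (fun r : ℝ => 4 * Real.pi * (μ univ).toReal * r) (𝓝[>] 0) (𝓝 0) := by
      have h3 : Tendsto (fun r : ℝ => 4 * Real.pi * (μ univ).toReal * r) (𝓝 0)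
          (𝓝 (4 * Real.pi * (μ univ).toReal * 0)) := tendsto_id.const_mul _
      rw [mul_zero] at h3
      exact h3.mono_left nhdsWithin_le_nhds
    refine ge_of_tendsto h2 ?_
    have h4 : ∀ᶠ r in 𝓝[>] (0 : ℝ), r ∈ Ioo 0 r₀ := Ioo_mem_nhdsGT hr₀
    filter_upwards [h4] with r hr using key r hr.1 hr.2
  have h2 : (volume S).toReal = 0 := by
    apply le_antisymm _ ENNReal.toReal_nonneg
    by_contra hcon
    rw [not_le] at hcon
    have := mul_pos hcon hc
    linarith
  rcases (ENNReal.toReal_eq_zero_iff _).1 h2 with h3 | h3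
  · exact h3
  · exact absurd h3 hfin

end Pool.Agent.H586R3.CT
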