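import Mathlib
import Pool.Agent.H586R3.CT7

set_option autoImplicit false

open MeasureTheory Metric Set Filter Topology Complex
open scoped ContDiff ENNReal Polynomial

namespace Pool.Agent.H586R3.CT

open Polynomial in
/-- a Bezout relation between a separable bivariate polynomial and its derivative -/
theorem bezout_of_separable (P : ℂ[X][X])
    (hsep : (P.map (algebraMap ℂ[X] (FractionRing ℂ[X]))).Separable) :
    ∃ R : ℂ[X], R ≠ 0 ∧ ∃ U V : ℂ[X][X], U * P + V * derivative P = C R := by
  obtain ⟨a, b, hab⟩ := hsep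
  obtain ⟨s, hs, hsa⟩ := IsLocalization.integerNormalization_spec (nonZeroDivisors ℂ[X]) a
  obtain ⟨t, ht, htb⟩ := IsLocalization.integerNormalization_spec (nonZeroDivisors ℂ[X]) b
  refine ⟨s * t, mul_ne_zero (nonZeroDivisors.ne_zero hs) (nonZeroDivisors.ne_zero ht),
    C t * IsLocalization.integerNormalization (nonZeroDivisors ℂ[X]) a,
    C s * IsLocalization.integerNormalization (nonZeroDivisors ℂ[X]) b, ?_⟩
  apply Polynomial.map_injective (algebraMap ℂ[X] (FractionRing ℂ[X]))
    (IsFractionRing.injective ℂ[X] (FractionRing ℂ[X]))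
  rw [Polynomial.map_add, Polynomial.map_mul, Polynomial.map_mul, Polynomial.map_mul,
    Polynomial.map_mul, hsa, htb, ← Polynomial.derivative_map, Polynomial.map_C, Polynomial.map_C,
    Polynomial.map_C, ← IsScalarTower.algebraMap_smul (FractionRing ℂ[X]) s a,
    ← IsScalarTower.algebraMap_smul (FractionRing ℂ[X]) t b, Polynomial.smul_eq_C_mul,
    Polynomial.smul_eq_C_mul, map_mul (algebraMap ℂ[X] (FractionRing ℂ[X])), Polynomial.C_mul]
  linear_combination (C (algebraMap ℂ[X] (FractionRing ℂ[X]) s) *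
    C (algebraMap ℂ[X] (FractionRing ℂ[X]) t)) * hab

open Polynomial in
/-- every nonzero bivariate polynomial has, up to a polynomial in `z`, a separable divisor with
the same zeros -/
theorem exists_sep (P : ℂ[X][X]) (hP : P ≠ 0) : ∃ Q : ℂ[X][X], Q ≠ 0 ∧
    (∃ R : ℂ[X], R ≠ 0 ∧ ∃ U V : ℂ[X][X], U * Q + V * derivative Q = C R) ∧
    ∃ t : ℂ[X], t ≠ 0 ∧ ∀ z w, P.evalEval z w = 0 → t.eval z ≠ 0 → Q.evalEval z w = 0 := by
  classical
  have hinj : Function.Injective (Polynomial.map (algebraMap ℂ[X] (FractionRing ℂ[X]))) :=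
    Polynomial.map_injective _ (IsFractionRing.injective ℂ[X] (FractionRing ℂ[X]))
  have hP' : P.map (algebraMap ℂ[X] (FractionRing ℂ[X])) ≠ 0 := by
    intro h
    exact hP (hinj (by rw [h, Polynomial.map_zero]))
  obtain ⟨r, n, hr, hrd, hdr⟩ := exists_squarefree_dvd_pow_of_ne_zero hP'
  have hr0 : r ≠ 0 := hr.ne_zero
  obtain ⟨s, hs, hsr⟩ := IsLocalization.integerNormalization_spec (nonZeroDivisors ℂ[X]) r
  set Q := IsLocalization.integerNormalization (nonZeroDivisors ℂ[X]) r with hQ
  have hs0 : algebraMap ℂ[X] (FractionRing ℂ[X]) s ≠ 0 := by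
    intro h
    exact nonZeroDivisors.ne_zero hs
      (IsFractionRing.injective ℂ[X] (FractionRing ℂ[X]) (by rw [h, map_zero]))
  have hsr' : Q.map (algebraMap ℂ[X] (FractionRing ℂ[X])) =
      C (algebraMap ℂ[X] (FractionRing ℂ[X]) s) * r := by
    rw [hsr, ← IsScalarTower.algebraMap_smul (FractionRing ℂ[X]) s r, Polynomial.smul_eq_C_mul]
  have hu : IsUnit (C (algebraMap ℂ[X] (FractionRing ℂ[X]) s)) :=
    Polynomial.isUnit_C.2 (isUnit_iff_ne_zero.2 hs0)
  have hsep : (Q.map (algebraMap ℂ[X] (FractionRing ℂ[X]))).Separable := by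
    rw [hsr']
    exact (PerfectField.separable_iff_squarefree.2 hr).unit_mul hu
  have hQ0 : Q ≠ 0 := by
    intro h
    rw [h, Polynomial.map_zero] at hsr'
    exact mul_ne_zero hu.ne_zero hr0 hsr'.symm
  obtain ⟨c, hc⟩ := hdr
  obtain ⟨t, ht, htc⟩ := IsLocalization.integerNormalization_spec (nonZeroDivisors ℂ[X]) c
  refine ⟨Q, hQ0, bezout_of_separable Q hsep, t, nonZeroDivisors.ne_zero ht, ?_⟩
  have key : C t * Q ^ n = C s ^ n *
      (P * IsLocalization.integerNormalization (nonZeroDivisors ℂ[X]) c) := by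
    apply hinj
    rw [Polynomial.map_mul, Polynomial.map_pow, Polynomial.map_mul, Polynomial.map_mul,
      Polynomial.map_pow, htc, hsr', ← IsScalarTower.algebraMap_smul (FractionRing ℂ[X]) t c,
      Polynomial.smul_eq_C_mul, mul_pow, hc, Polynomial.map_C, Polynomial.map_C]
    ring
  intro z w hPz htz
  have h1 := congrArg (Polynomial.evalEval z w) key
  rw [evalEval_mul, evalEval_mul, evalEval_mul, hPz, evalEval_C, evalEval_pow, zero_mul,
    mul_zero] at h1
  rcases mul_eq_zero.1 h1 with h2 | h2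
  · exact absurd h2 htz
  · exact eq_zero_of_pow_eq_zero h2

lemma finite_zeros {a : ℂ[X]} (ha : a ≠ 0) : {z : ℂ | a.eval z = 0}.Finite := by
  refine (a.roots.toFinset.finite_toSet).subset ?_
  intro z hz
  rw [Finset.mem_coe, Multiset.mem_toFinset, Polynomial.mem_roots ha]
  exact hz

/-- the support of a finite positive measure with algebraic Cauchy transform is a null set -/
theorem support_null (μ : Measure ℂ) [IsFiniteMeasure μ] (P : ℂ[X][X]) (hP : P ≠ 0)
    (h : ∀ᵐ z : ℂ, P.evalEval z (CT μ z) = 0) : volume μ.support = 0 := by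
  obtain ⟨Q, hQ0, ⟨R, hR, U, V, hUV⟩, t, ht, hPQ⟩ := exists_sep P hP
  have hQ : ∀ᵐ z : ℂ, Q.evalEval z (CT μ z) = 0 := by
    have h1 : volume {z : ℂ | t.eval z = 0} = 0 := (finite_zeros ht).measure_zero _
    filter_upwards [h, compl_mem_ae_iff.2 h1] with z hz1 hz2 using hPQ z _ hz1 hz2
  have hl : Q.leadingCoeff ≠ 0 := Polynomial.leadingCoeff_ne_zero.2 hQ0
  set B : Set ℂ := {z : ℂ | R.eval z = 0} ∪ {z : ℂ | Q.leadingCoeff.eval z = 0} with hB
  have hBfin : B.Finite := (finite_zeros hR).union (finite_zeros hl)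
  have hBnull : volume B = 0 := hBfin.measure_zero _
  have hloc : volume (μ.support \ B) = 0 := by
    apply measure_null_of_locally_null
    rintro z₀ ⟨-, hz₀⟩
    rw [hB, mem_union, not_or] at hz₀
    obtain ⟨r, hr, A, hA, hne, hval⟩ := exists_branches Q hUV hz₀.1 hz₀.2
    obtain ⟨c, hc, hdens⟩ := local_density μ hr A hA hne (by
      filter_upwards [hQ] with z hz hzb
      exact hval z hzb _ hz)
    have h1 : volume (μ.support ∩ ball z₀ (r / 4)) = 0 :=
      volume_zero_of_density μ (isBounded_ball.subset inter_subset_right) hc (r₀ := r / 8)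
        (by positivity) hdens
    refine ⟨(μ.support \ B) ∩ ball z₀ (r / 4), ?_, ?_⟩
    · exact inter_mem self_mem_nhdsWithin (mem_nhdsWithin_of_mem_nhds (ball_mem_nhds _ (by positivity)))
    · exact measure_mono_null (inter_subset_inter_left _ sdiff_subset) h1
  have h2 : μ.support ⊆ (μ.support \ B) ∪ B := by
    intro z hz
    by_cases hzB : z ∈ B
    · exact Or.inr hzB
    · exact Or.inl ⟨hz, hzB⟩
  exact measure_mono_null h2 (measure_union_null hloc hBnull)

end Pool.Agent.H586R3.CT
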